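import Pool.Agent.H56.EX.TL

/-!
# The total length of the arcs of a link pattern
-/

namespace Pool.Agent.H12.QKZ

open H56.EX

variable {L : ℕ}

/-- Twice the total length of the arcs. -/
noncomputable def area (P : Pat L) : ℤ := ∑ x ∈ Finset.Ico (0 : ℤ) L, |P.m x - x|

theorem area_nonneg (P : Pat L) : 0 ≤ area P := Finset.sum_nonneg fun _ _ => abs_nonneg _

theorem area_le (P : Pat L) : area P ≤ L * L := by
  unfold area
  calc ∑ x ∈ Finset.Ico (0 : ℤ) L, |P.m x - x| ≤ ∑ x ∈ Finset.Ico (0 : ℤ) L, (L : ℤ) :=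
        Finset.sum_le_sum fun x _ => (P.short x).le
    _ = L * L := by simp

theorem sum_class (hL : 1 ≤ L) (c v : ℤ) :
    ∑ x ∈ Finset.Ico (0 : ℤ) L, (if Cg L x c then v else 0) = v := by
  have hpos : (0 : ℤ) < L := by omega
  rw [Finset.sum_eq_single (c % (L : ℤ))]
  · rw [if_pos]
    unfold Cg
    rw [show c % (L : ℤ) - c = -(c - c % L) by ring, dvd_neg]
    exact Int.dvd_self_sub_emod
  · intro x hx hne
    rw [if_neg]
    intro hc
    apply hne
    rw [Finset.mem_Ico] at hx
    have h1 : x % (L : ℤ) = c % L :=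
      Int.emod_eq_emod_iff_emod_sub_eq_zero.2 (Int.emod_eq_zero_of_dvd hc)
    rw [← h1, Int.emod_eq_of_lt hx.1 hx.2]
  · intro hx
    exfalso
    apply hx
    rw [Finset.mem_Ico]
    exact ⟨Int.emod_nonneg _ hpos.ne', Int.emod_lt_of_pos _ hpos⟩

theorem not_cg_m_self (P : Pat L) (x : ℤ) : ¬ Cg L (P.m x) x := P.not_dvd_self x

/-- Change of the area under `e_i`. -/
theorem area_E (P : Pat L) (i : ℤ) (h : ¬ Cg L (P.m i) (i + 1)) :
    area (E i P) + 2 * |P.m i - i| + 2 * |P.m (i + 1) - (i + 1)|
      = area P + 2 + 2 * |P.m (i + 1) - P.m i| := by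
  have hL2 := P.two_le
  have hL : 1 ≤ L := by omega
  set a := P.m i with ha
  set b := P.m (i + 1) with hb
  have hPa : P.m a = i := P.inv i
  have hPb : P.m b = i + 1 := P.inv (i + 1)
  have n1 : ¬ Cg L i (i + 1) := not_Cg_succ hL2 i
  have n1' : ¬ Cg L (i + 1) i := fun h => n1 (Cg.symm' h)
  have n2 : ¬ Cg L a i := not_cg_m_self P i
  have n3 : ¬ Cg L b (i + 1) := not_cg_m_self P (i + 1)
  have n4 : ¬ Cg L b i := by
    intro h'
    apply h
    have := Cg.m P h'
    rw [hPb, ← ha] at this
    exact Cg.symm' this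
  have n5 : ¬ Cg L a b := fun h' => n1 (Cg.m' P h')
  have n5' : ¬ Cg L b a := fun h' => n5 (Cg.symm' h')
  have key : ∀ x : ℤ, |(E i P).m x - x| = |P.m x - x|
      + (if Cg L x i then 1 - |a - i| else 0)
      + (if Cg L x (i + 1) then 1 - |b - (i + 1)| else 0)
      + (if Cg L x a then |b - a| - |a - i| else 0)
      + (if Cg L x b then |b - a| - |b - (i + 1)| else 0) := by
    intro x
    by_cases c1 : Cg L x i
    · have e1 : ¬ Cg L x (i + 1) := fun h' => n1 (Cg.trans' (Cg.symm' c1) h')
      have e2 : ¬ Cg L x a := fun h' => n2 (Cg.trans' (Cg.symm' h') c1)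
      have e3 : ¬ Cg L x b := fun h' => n4 (Cg.trans' (Cg.symm' h') c1)
      rw [if_pos c1, if_neg e1, if_neg e2, if_neg e3, E.of_i P i c1]
      have hm : P.m x = a + (x - i) := P.per_dvd c1
      rw [hm, show x + 1 - x = 1 by ring, show a + (x - i) - x = a - i by ring]
      simp
    by_cases c2 : Cg L x (i + 1)
    · have e2 : ¬ Cg L x a := fun h' => h (Cg.trans' (Cg.symm' h') c2)
      have e3 : ¬ Cg L x b := fun h' => n3 (Cg.trans' (Cg.symm' h') c2)
      rw [if_neg c1, if_pos c2, if_neg e2, if_neg e3, E.of_succ P i c2]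
      have hm : P.m x = b + (x - (i + 1)) := P.per_dvd c2
      rw [hm, show x - 1 - x = -1 by ring, show b + (x - (i + 1)) - x = b - (i + 1) by ring]
      simp
    by_cases c3 : Cg L x a
    · have e3 : ¬ Cg L x b := fun h' => n5 (Cg.trans' (Cg.symm' c3) h')
      rw [if_neg c1, if_neg c2, if_pos c3, if_neg e3]
      have hm : P.m x = i + (x - a) := by rw [P.per_dvd c3, hPa]
      have hc : Cg L (P.m x) i := by
        rw [hm]; unfold Cg; unfold Cg at c3
        rwa [show i + (x - a) - i = x - a by ring]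
      rw [E.of_m P i c1 c2 hc, hm]
      have hm2 : P.m (i + (x - a) + 1) = b + (x - a) := by
        have : Cg L (i + (x - a) + 1) (i + 1) := by
          unfold Cg; unfold Cg at c3
          rwa [show i + (x - a) + 1 - (i + 1) = x - a by ring]
        rw [P.per_dvd this, ← hb]; ring
      rw [hm2, show b + (x - a) - x = b - a by ring, show i + (x - a) - x = -(a - i) by ring,
        abs_neg]
      ring
    by_cases c4 : Cg L x b
    · rw [if_neg c1, if_neg c2, if_neg c3, if_pos c4]
      have hm : P.m x = i + 1 + (x - b) := by rw [P.per_dvd c4, hPb]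
      have hc : Cg L (P.m x) (i + 1) := by
        rw [hm]; unfold Cg; unfold Cg at c4
        rwa [show i + 1 + (x - b) - (i + 1) = x - b by ring]
      rw [E.of_m_succ P i c1 c2 hc, hm]
      have hm2 : P.m (i + 1 + (x - b) - 1) = a + (x - b) := by
        have : Cg L (i + 1 + (x - b) - 1) i := by
          unfold Cg; unfold Cg at c4
          rwa [show i + 1 + (x - b) - 1 - i = x - b by ring]
        rw [P.per_dvd this, ← ha]; ring
      rw [hm2, show a + (x - b) - x = -(b - a) by ring, abs_neg,
        show i + 1 + (x - b) - x = -(b - (i + 1)) by ring, abs_neg]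
      ring
    · rw [if_neg c1, if_neg c2, if_neg c3, if_neg c4]
      have e1 : ¬ Cg L (P.m x) i := by
        intro h'
        apply c3
        apply Cg.m' P
        rw [hPa]; exact h'
      have e2 : ¬ Cg L (P.m x) (i + 1) := by
        intro h'
        apply c4
        apply Cg.m' P
        rw [hPb]; exact h'
      rw [E.other P i c1 c2 e1 e2]
      ring
  have hsum : area (E i P) = area P + (1 - |a - i|) + (1 - |b - (i + 1)|)
      + (|b - a| - |a - i|) + (|b - a| - |b - (i + 1)|) := by
    unfold area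
    rw [Finset.sum_congr rfl fun x _ => key x]
    simp only [Finset.sum_add_distrib, sum_class hL]
  rw [hsum]; ring

end Pool.Agent.H12.QKZ
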