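import Pool.Agent.H56.EX.Defs

/-!
# Interface for the construction of the polynomial qKZ solution

`PsiPre Ψ` collects the properties of `Ψ` which are obtained directly from the construction; the arc
recursion (`arc_zero`, `arc` of `PsiProps`) is derived from `PsiPre` and the triangularity lemma.
-/

namespace Pool.Agent.H12.QKZ

open H56.EX

/-- The properties of the qKZ solution obtained directly from the construction. -/
structure PsiPre (Ψ : ∀ L : ℕ, Pat L → (ℤ → ℂ) → ℂ) : Prop where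
  congr : ∀ (L : ℕ) (P : Pat L) (ζ ζ' : ℤ → ℂ), (∀ x : ℤ, 0 ≤ x → x < L → ζ x = ζ' x) →
    Ψ L P ζ = Ψ L P ζ'
  mv : ∀ (L : ℕ) (P : Pat L), ∃ p : MvPolynomial (Fin L) ℂ, ∀ ζ : ℤ → ℂ,
    Ψ L P ζ = MvPolynomial.eval (fun k : Fin L => ζ ((k : ℕ) : ℤ)) p
  exch : ∀ (L : ℕ) (P : Pat L) (ζ : ℤ → ℂ), Per L ζ → ∀ i : ℤ,
    (q * ζ (i + 1) - q⁻¹ * ζ i) * Ψ L P (swp L i ζ) =
      (q * ζ i - q⁻¹ * ζ (i + 1)) * Ψ L P ζ +
        (ζ i - ζ (i + 1)) * eop i (fun P' => Ψ L P' ζ) P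
  rot : ∀ (L : ℕ) (P : Pat L) (ζ : ℤ → ℂ), Per L ζ →
    Ψ L (rot P) (fun x => ζ (x - 1)) = Ψ L P ζ
  base : ∀ (L : ℕ) (P : Pat L) (ζ : ℤ → ℂ), IsBase P →
    Ψ L P ζ = ∏ j ∈ Finset.range L, ∏ i ∈ Finset.range j,
      (q * ζ j - q⁻¹ * ζ i) / (q - q⁻¹)

/-- The statement of the triangularity lemma: a family satisfying the exchange relations and
rotation covariance on a set `O` of (states of) parameters with neighbouring parameters different,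
and whose base component vanishes on `O`, vanishes on `O`. -/
def Triangular : Prop :=
  ∀ (L : ℕ) (Ω : Type) (O : Set Ω) (s : ℤ → Ω → Ω) (r : Ω → Ω) (z : Ω → ℤ → ℂ)
    (D : Pat L → Ω → ℂ),
    (∀ i, ∀ ω ∈ O, s i ω ∈ O) →
    (∀ ω ∈ O, ∃ ω' ∈ O, r ω' = ω) →
    (∀ ω ∈ O, ∀ i, z ω i ≠ z ω (i + 1)) →
    (∀ (P : Pat L), ∀ ω ∈ O, ∀ i : ℤ,
      (q * z ω (i + 1) - q⁻¹ * z ω i) * D P (s i ω) =
        (q * z ω i - q⁻¹ * z ω (i + 1)) * D P ω +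
          (z ω i - z ω (i + 1)) * eop i (fun P' => D P' ω) P) →
    (∀ (P : Pat L), ∀ ω ∈ O, D (rot P) (r ω) = D P ω) →
    (∀ (P : Pat L), IsBase P → ∀ ω ∈ O, D P ω = 0) →
    ∀ (P : Pat L), ∀ ω ∈ O, D P ω = 0

end Pool.Agent.H12.QKZ
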