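import Pool.Agent.H12.QKZ.Area
import Pool.Agent.H12.QKZ.Iface

/-!
# Good positions of a link pattern and the fibres of `e_i`
-/

namespace Pool.Agent.H12.QKZ

open H56.EX

variable {L : ℕ}

/-- `i` is a good position of `P`: strands `i` and `i+1` are connected to the left and to the right,
respectively, and not with each other. -/
def Good (P : Pat L) (i : ℤ) : Prop :=
  P.m i < i ∧ i + 1 < P.m (i + 1) ∧ ¬ Cg L (P.m i) (i + 1)

theorem cg_iff_eq_zero {L : ℕ} {x y : ℤ} (h1 : x - y < L) (h2 : -(L : ℤ) < x - y) :
    Cg L x y ↔ x = y := by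
  constructor
  · intro h
    rcases dvd_cases h with h | h | h <;> omega
  · rintro rfl; exact Cg.refl' x

theorem _root_.H56.EX.Pat.partner_close' (P : Pat L) {i : ℤ} (h : ¬ Cg L (P.m i) (i + 1)) :
    P.m (i + 1) - P.m i < L ∧ P.m i - P.m (i + 1) < L := partner_close P h

theorem exists_adj (P : Pat L) {y : ℤ} (hy : P.m y < y) :
    ∀ k : ℕ, y + k < P.m (y + k) → ∃ i, P.m i < i ∧ i + 1 < P.m (i + 1) := by
  intro k
  induction k with
  | zero => intro h; simp only [Nat.cast_zero, add_zero] at h; omega
  | succ k ih =>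
    intro h
    rcases lt_or_gt_of_ne (P.ne (y + k)) with h1 | h1
    · refine ⟨y + k, h1, ?_⟩
      have e : y + ((k + 1 : ℕ) : ℤ) = y + k + 1 := by push_cast; ring
      rw [e] at h; exact h
    · exact ih h1

theorem exists_adj' (P : Pat L) : ∃ i, P.m i < i ∧ i + 1 < P.m (i + 1) := by
  -- an opener
  obtain ⟨x, hx⟩ : ∃ x, x < P.m x := by
    rcases lt_or_gt_of_ne (P.ne 0) with h | h
    · exact ⟨P.m 0, by rw [P.inv]; exact h⟩
    · exact ⟨0, h⟩
  have hs := P.short' x
  have hy : P.m (P.m x) < P.m x := by rw [P.inv]; exact hx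
  obtain ⟨k, hk⟩ : ∃ k : ℕ, P.m x + k = x + L := ⟨(x + L - P.m x).toNat, by omega⟩
  apply exists_adj P hy k
  rw [hk, P.per]; omega

/-- Without good positions a pattern is a rotation of the base pattern. -/
theorem nested (P : Pat L) (h : ∀ i, ¬ Good P i) {i : ℤ} (hi1 : P.m i < i)
    (hi2 : i + 1 < P.m (i + 1)) : ∀ k : ℕ, 2 * k < L → P.m (i + 1 + k) = i + L - k := by
  have hL := P.two_le
  have hcg : Cg L (P.m i) (i + 1) := by
    by_contra hc
    exact h i ⟨hi1, hi2, hc⟩
  have s1 := P.short' i
  have hmi : P.m i = i + 1 - L := by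
    have := dvd_cases hcg
    omega
  have hmi1 : P.m (i + 1) = i + L := by
    have h1 := P.per (P.m i)
    rw [P.inv, hmi, show i + 1 - (L : ℤ) + L = i + 1 by ring] at h1
    exact h1
  intro k
  induction k using Nat.strong_induction_on with
  | _ k ih =>
    intro hk
    rcases Nat.eq_zero_or_pos k with h0 | hpos
    · subst h0; simpa using hmi1
    obtain ⟨k', rfl⟩ : ∃ k', k = k' + 1 := ⟨k - 1, by omega⟩
    have hx' := ih k' (by omega) (by omega)
    obtain ⟨x, hx⟩ : ∃ x : ℤ, x = i + 1 + ((k' + 1 : ℕ) : ℤ) := ⟨_, rfl⟩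
    obtain ⟨Y, hY⟩ : ∃ Y : ℤ, Y = i + L - ((k' + 1 : ℕ) : ℤ) := ⟨_, rfl⟩
    rw [← hx, ← hY]
    have hk2 : 2 * ((k' + 1 : ℕ) : ℤ) < L := by exact_mod_cast hk
    push_cast at hx hY hk2
    have hx1 : P.m (x - 1) = Y + 1 := by
      rw [hx, hY, show i + 1 + ((k' : ℤ) + 1) - 1 = i + 1 + k' by ring, hx']; ring
    have n1 := P.nc (x - 1) x (by omega) (by omega)
    have n2 := P.ne x
    by_contra hne
    have hlt : P.m x < Y := by omega
    obtain ⟨y, hy⟩ : ∃ y, y = P.m x := ⟨_, rfl⟩
    rw [← hy] at hlt n1 n2
    have hmy : P.m y = x := by rw [hy, P.inv]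
    have n3 := P.nc (x - 1) (y + 1) (by omega) (by omega)
    have n4 := P.ne (y + 1)
    have n5 : P.m (y + 1) ≠ x := by
      intro h'
      have := congrArg P.m h'
      rw [P.inv, ← hy] at this
      omega
    have n6 : P.m (y + 1) ≠ y := by
      intro h'
      have := congrArg P.m h'
      rw [P.inv, hmy] at this
      omega
    rcases lt_or_gt_of_ne n4 with h4 | h4
    · have := P.nc x (P.m (y + 1)) (by omega) (by omega)
      rw [P.inv] at this
      omega
    · apply h y
      refine ⟨by omega, h4, ?_⟩
      rw [hmy]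
      intro hc
      have := (cg_iff_eq_zero (by omega) (by omega)).1 hc
      omega

theorem rot_iter_m (B : Pat L) (k : ℕ) (x : ℤ) : (rot^[k] B).m x = B.m (x - k) + k := by
  induction k generalizing x with
  | zero => simp
  | succ k ih =>
    rw [Function.iterate_succ', Function.comp_apply, rot_m, ih]
    push_cast
    rw [show x - 1 - (k : ℤ) = x - (k + 1) by ring]; ring

theorem good_or_base (P : Pat L) :
    (∃ (k : ℕ) (B : Pat L), IsBase B ∧ P = rot^[k] B) ∨ ∃ i, Good P i := by
  by_cases h : ∃ i, Good P i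
  · exact Or.inr h
  left
  push Not at h
  have hL := P.two_le
  obtain ⟨i, hi1, hi2⟩ := exists_adj' P
  have hn := nested P h hi1 hi2
  obtain ⟨n, hn2⟩ : ∃ n, L = 2 * n := by
    rcases Nat.even_or_odd' L with ⟨n, hn' | hn'⟩
    · exact ⟨n, hn'⟩
    · exfalso
      have := hn n (by omega)
      apply P.ne (i + 1 + n)
      rw [this, hn']; push_cast; ring
  obtain ⟨c, hc⟩ : ∃ c : ℤ, c = i + 1 + n := ⟨_, rfl⟩
  have hbase : ∀ x : ℤ, -(L : ℤ) ≤ 2 * x → 2 * x < L → P.m (x + c) - c = -1 - x := by
    have hneg : ∀ x : ℤ, -(L : ℤ) ≤ 2 * x → x < 0 → P.m (x + c) - c = -1 - x := by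
      intro x h1 h2
      obtain ⟨k, hk⟩ : ∃ k : ℕ, (k : ℤ) = n + x := ⟨(n + x).toNat, by omega⟩
      have := hn k (by omega)
      rw [hk] at this
      rw [show x + c = i + 1 + (n + x) by rw [hc]; ring, this, hc]
      subst hn2; push_cast; ring
    intro x h1 h2
    rcases lt_or_ge x 0 with h3 | h3
    · exact hneg x h1 h3
    · have := hneg (-1 - x) (by omega) (by omega)
      have h4 : P.m (-1 - x + c) = x + c := by linarith
      have h5 := P.inv (-1 - x + c)
      rw [h4] at h5
      linarith
  -- the base pattern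
  let B : Pat L :=
    { m := fun x => P.m (x + c) - c
      inv := fun x => by
        show P.m (P.m (x + c) - c + c) - c = x
        rw [sub_add_cancel, P.inv]; ring
      per := fun x => by
        show P.m (x + L + c) - c = P.m (x + c) - c + L
        rw [show x + (L : ℤ) + c = x + c + L by ring, P.per]; ring
      ne := fun x h' => P.ne (x + c) (by linarith)
      short := fun x => by
        have := P.short (x + c)
        show |P.m (x + c) - c - x| < L
        rwa [show P.m (x + c) - c - x = P.m (x + c) - (x + c) by ring]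
      nc := fun x y h1 h2 => by
        have := P.nc (x + c) (y + c) (by linarith) (by linarith)
        exact ⟨by linarith [this.1], by linarith [this.2]⟩ }
  refine ⟨(c % L).toNat, B, fun x h1 h2 => hbase x h1 h2, ?_⟩
  apply Pat.ext
  funext x
  rw [rot_iter_m]
  have hpos : (0 : ℤ) < L := by omega
  have hk : (((c % L).toNat : ℕ) : ℤ) = c % L := Int.toNat_of_nonneg (Int.emod_nonneg _ hpos.ne')
  rw [hk]
  show P.m x = P.m (x - c % L + c) - c + c % L
  have hd : Cg L (x - c % L + c) x := by
    unfold Cg
    rw [show x - c % L + c - x = c - c % L by ring]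
    exact Int.dvd_self_sub_emod
  rw [P.per_dvd hd]; ring

theorem area_lt_of_good {P : Pat L} {i : ℤ} (h : Good P i) : area P < area (E i P) := by
  have := area_E P i h.2.2
  rw [abs_of_neg (by linarith [h.1] : P.m i - i < 0),
    abs_of_pos (by linarith [h.2.1] : 0 < P.m (i + 1) - (i + 1)),
    abs_of_pos (by linarith [h.1, h.2.1] : 0 < P.m (i + 1) - P.m i)] at this
  linarith

/-- The fibre of `e_i` over `e_i P` for a good position. -/
theorem fibre_of_good {P P' : Pat L} {i : ℤ} (h : Good P i) (hE : E i P' = E i P) :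
    P' = P ∨ area P < area P' := by
  have hL := P.two_le
  have hA := area_lt_of_good h
  obtain ⟨h1, h2, h3⟩ := h
  by_cases c0 : P'.m i = i + 1
  · right
    have := E.eq_self P' i c0
    rw [← this, hE]; exact hA
  obtain ⟨a, ha⟩ : ∃ a, a = P.m i := ⟨_, rfl⟩
  obtain ⟨b, hb⟩ : ∃ b, b = P.m (i + 1) := ⟨_, rfl⟩
  obtain ⟨a', ha'⟩ : ∃ a', a' = P'.m i := ⟨_, rfl⟩
  obtain ⟨b', hb'⟩ : ∃ b', b' = P'.m (i + 1) := ⟨_, rfl⟩
  have hPa : P.m a = i := by rw [ha, P.inv]
  have hPb : P.m b = i + 1 := by rw [hb, P.inv]
  have hPa' : P'.m a' = i := by rw [ha', P'.inv]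
  have hPb' : P'.m b' = i + 1 := by rw [hb', P'.inv]
  have n1 : ¬ Cg L i (i + 1) := not_Cg_succ hL i
  have n1' : ¬ Cg L (i + 1) i := fun h => n1 (Cg.symm' h)
  have sa := P.short' i
  have sb := P.short' (i + 1)
  have sa' := P'.short' i
  have sb' := P'.short' (i + 1)
  rw [← ha] at h1 h3 sa
  rw [← hb] at h2 sb
  rw [← ha'] at sa' c0
  rw [← hb'] at sb'
  have na : ¬ Cg L a i := by rw [ha]; exact not_cg_m_self P i
  have nb1 : ¬ Cg L b (i + 1) := by rw [hb]; exact not_cg_m_self P (i + 1)
  have nb : ¬ Cg L b i := by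
    intro h'
    apply h3
    have := Cg.m P h'
    rw [hPb, ← ha] at this
    exact Cg.symm' this
  -- values of `Q = E i P`
  have hQa : (E i P).m a = b := by
    rw [E.of_m P i na h3 (by rw [hPa]; exact Cg.refl' _), hPa, hb]
  have hcl := P.partner_close' (by rw [← ha]; exact h3)
  rw [← ha, ← hb] at hcl
  by_cases c1 : Cg L a' (i + 1)
  · -- matched around
    exfalso
    have e1 : a' = i + 1 - L := by
      have := dvd_cases c1
      omega
    have e2 : P'.m (i + 1 - L) = i := by rw [← e1]; exact hPa'
    have e3 : a ≠ i + 1 - L := by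
      rintro rfl
      apply h3
      unfold Cg
      rw [show i + 1 - (L : ℤ) - (i + 1) = -L by ring, dvd_neg]
    have e4 := P'.nc (i + 1 - L) a (by omega) (by omega)
    have e5 : ¬ Cg L (P'.m a) i := by
      intro h'
      have := Cg.m P' h'
      rw [P'.inv, ← ha'] at this
      exact h3 (Cg.trans' this c1)
    have e6 : ¬ Cg L (P'.m a) (i + 1) := by
      intro h'
      have h7 := Cg.m P' h'
      rw [P'.inv, ← hb'] at h7
      have h8 : Cg L b' i := by
        have := Cg.m P' (Cg.symm' c1)
        rw [hPa', ← hb'] at this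
        exact this
      exact na (Cg.trans' h7 h8)
    have e7 : (E i P').m a = P'.m a := E.other P' i na h3 e5 e6
    rw [hE, hQa] at e7
    omega
  have na' : ¬ Cg L a' i := by rw [ha']; exact not_cg_m_self P' i
  have nb1' : ¬ Cg L b' (i + 1) := by rw [hb']; exact not_cg_m_self P' (i + 1)
  have nb' : ¬ Cg L b' i := by
    intro h'
    apply c1
    have := Cg.m P' h'
    rw [hPb', ← ha'] at this
    exact Cg.symm' this
  have hQa' : (E i P').m a' = b' := by
    rw [E.of_m P' i na' c1 (by rw [hPa']; exact Cg.refl' _), hPa', hb']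
  have hcl' := P'.partner_close' (by rw [← ha']; exact c1)
  rw [← ha', ← hb'] at hcl'
  have hAE := area_E P' i (by rw [← ha']; exact c1)
  rw [← ha', ← hb', hE] at hAE
  have nea : a' ≠ i := by rw [ha']; exact P'.ne i
  have neb : b' ≠ i + 1 := by rw [hb']; exact P'.ne (i + 1)
  have neb' : b' ≠ i := by
    intro h'
    apply c0
    rw [← hPb', h', ← ha']
  rcases lt_or_gt_of_ne nea with g1 | g1
  · rcases lt_or_gt_of_ne neb with g2 | g2
    · -- closer at `i + 1` covering `i`
      right
      have hb'i : b' < i := by omega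
      have := P'.nc b' i hb'i (by rw [hPb']; omega)
      rw [← ha', hPb'] at this
      rw [abs_of_neg (by omega : a' - i < 0), abs_of_neg (by omega : b' - (i + 1) < 0),
        abs_of_neg (by omega : b' - a' < 0)] at hAE
      omega
    · -- the interesting case
      left
      have haa : a' = a := by
        rcases lt_trichotomy a' a with g | g | g
        · exfalso
          have e4 := P'.nc a' a g (by rw [hPa']; exact h1)
          rw [hPa'] at e4
          have e5 : ¬ Cg L (P'.m a) i := by
            intro h'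
            have := Cg.m P' h'
            rw [P'.inv, ← ha'] at this
            have := (cg_iff_eq_zero (by omega) (by omega)).1 this
            omega
          have e6 : ¬ Cg L (P'.m a) (i + 1) := by
            intro h'
            have := Cg.m P' h'
            rw [P'.inv, ← hb'] at this
            have := (cg_iff_eq_zero (by omega) (by omega)).1 this
            omega
          have e7 : (E i P').m a = P'.m a := E.other P' i na h3 e5 e6
          rw [hE, hQa] at e7
          omega
        · exact g
        · exfalso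
          have e4 := P.nc a a' g (by rw [hPa]; exact g1)
          rw [hPa] at e4
          have e5 : ¬ Cg L (P.m a') i := by
            intro h'
            have := Cg.m P h'
            rw [P.inv, ← ha] at this
            have := (cg_iff_eq_zero (by omega) (by omega)).1 this
            omega
          have e6 : ¬ Cg L (P.m a') (i + 1) := by
            intro h'
            have := Cg.m P h'
            rw [P.inv, ← hb] at this
            have := (cg_iff_eq_zero (by omega) (by omega)).1 this
            omega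
          have e7 : (E i P).m a' = P.m a' := E.other P i na' c1 e5 e6
          rw [← hE, hQa'] at e7
          omega
      subst haa
      have hbb : b' = b := by
        rw [hE, hQa] at hQa'
        exact hQa'.symm
      subst hbb
      apply Pat.ext
      funext x
      by_cases x1 : Cg L x i
      · exact Pat.eq_of_dvd x1 (by rw [← ha, ← ha'])
      by_cases x2 : Cg L x (i + 1)
      · exact Pat.eq_of_dvd x2 (by rw [← hb, ← hb'])
      by_cases x3 : Cg L x a'
      · exact Pat.eq_of_dvd x3 (by rw [hPa, hPa'])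
      by_cases x4 : Cg L x b'
      · exact Pat.eq_of_dvd x4 (by rw [hPb, hPb'])
      have y1 : ¬ Cg L (P.m x) i := fun h' => x3 (Cg.m' P (by rw [hPa]; exact h'))
      have y2 : ¬ Cg L (P.m x) (i + 1) := fun h' => x4 (Cg.m' P (by rw [hPb]; exact h'))
      have y3 : ¬ Cg L (P'.m x) i := fun h' => x3 (Cg.m' P' (by rw [hPa']; exact h'))
      have y4 : ¬ Cg L (P'.m x) (i + 1) := fun h' => x4 (Cg.m' P' (by rw [hPb']; exact h'))
      rw [← E.other P i x1 x2 y1 y2, ← E.other P' i x1 x2 y3 y4, hE]
  · -- opener at `i`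
    right
    have := P'.nc i (i + 1) (by omega) (by rw [← ha']; omega)
    rw [← ha', ← hb'] at this
    rw [abs_of_pos (by omega : 0 < a' - i), abs_of_pos (by omega : 0 < b' - (i + 1)),
      abs_of_neg (by omega : b' - a' < 0)] at hAE
    omega

end Pool.Agent.H12.QKZ
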