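import Pool.Agent.H12.QKZ.Num

/-!
# Zariski density of the admissible points
-/

namespace Pool.Agent.H12.QKZ

open H56.EX

theorem zc_injOn {s t : ℝ} (hs : 0 < s) (hs' : s < Real.pi / 3) (ht : 0 < t)
    (ht' : t < Real.pi / 3) (h : zc s = zc t) : s = t := by
  have h1 : zc s - zc t = 0 := sub_eq_zero.2 h
  rw [zc_sub] at h1
  have h2 : (Complex.exp (((s + t) / 2 : ℝ) * Complex.I) * (2 * Complex.I)) ≠ 0 := by
    refine mul_ne_zero (Complex.exp_ne_zero _) ?_
    simp
  have h3 : Real.sin ((s - t) / 2) = 0 := by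
    have := (mul_eq_zero.1 h1).resolve_left h2
    exact_mod_cast this
  have hpi := Real.pi_pos
  have h4 := (Real.sin_eq_zero_iff_of_lt_of_lt (x := (s - t) / 2) (by linarith) (by linarith)).1 h3
  linarith

/-- A polynomial vanishing at all points of the unit circle with pairwise distinct angles in
`(0, π/3)` is zero. -/
theorem dens {L : ℕ} (p : MvPolynomial (Fin L) ℂ)
    (h : ∀ t : Fin L → ℝ, (∀ k, 0 < t k ∧ t k < Real.pi / 3) → Function.Injective t →
      MvPolynomial.eval (fun k => zc (t k)) p = 0) : p = 0 := by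
  classical
  set V : MvPolynomial (Fin L) ℂ := ∏ a, ∏ b,
    (if a = b then 1 else (MvPolynomial.X a - MvPolynomial.X b)) with hV
  have hV0 : V ≠ 0 := by
    rw [hV, Finset.prod_ne_zero_iff]
    intro a _
    rw [Finset.prod_ne_zero_iff]
    intro b _
    split_ifs with hab
    · exact one_ne_zero
    · rw [sub_ne_zero]
      intro h'
      exact hab (MvPolynomial.X_injective h')
  have hpV : p * V = 0 := by
    apply MvPolynomial.funext_set (fun _ : Fin L => zc '' Set.Ioo 0 (Real.pi / 3))
    · intro _
      apply Set.Infinite.image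
      · intro s hs t ht hst
        exact zc_injOn hs.1 hs.2 ht.1 ht.2 hst
      · exact Set.Ioo_infinite (by positivity)
    · intro x hx
      choose t ht using fun k => hx k (Set.mem_univ k)
      have hx' : x = fun k => zc (t k) := funext fun k => (ht k).2.symm
      rw [map_mul, map_zero]
      by_cases hinj : Function.Injective t
      · rw [hx', h t (fun k => (ht k).1) hinj, zero_mul]
      · have : ∃ a b, t a = t b ∧ a ≠ b := by
          by_contra hc
          push Not at hc
          exact hinj fun a b hab => hc a b hab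
        obtain ⟨a, b, hab, hne⟩ := this
        have hv : MvPolynomial.eval x V = 0 := by
          rw [hV, map_prod]
          apply Finset.prod_eq_zero (Finset.mem_univ a)
          rw [map_prod]
          apply Finset.prod_eq_zero (Finset.mem_univ b)
          rw [if_neg hne, map_sub, MvPolynomial.eval_X, MvPolynomial.eval_X, hx']
          simp only [hab, sub_self]
        rw [hv, mul_zero]
  exact (mul_eq_zero.1 hpV).resolve_right hV0

/-- Periodic extension of a finite sequence of angles. -/
noncomputable def ext (L : ℕ) (hL : 0 < L) (t : Fin L → ℝ) : ℤ → ℝ :=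
  fun x => t ⟨(x % (L : ℤ)).toNat, by
    have h1 := Int.emod_lt_of_pos x (show (0 : ℤ) < L by omega)
    have h2 := Int.emod_nonneg x (show (L : ℤ) ≠ 0 by omega)
    omega⟩

theorem ext_fin {L : ℕ} (hL : 0 < L) (t : Fin L → ℝ) (k : Fin L) : ext L hL t (k : ℕ) = t k := by
  unfold ext
  congr 1
  apply Fin.ext
  simp only
  rw [Int.emod_eq_of_lt (by omega) (by have := k.isLt; omega)]
  simp

theorem ext_adm {L : ℕ} (hL : 0 < L) (t : Fin L → ℝ) (h1 : ∀ k, 0 < t k ∧ t k < Real.pi / 3)
    (h2 : Function.Injective t) : ∃ m, Adm L (ext L hL t) m := by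
  have hpos : (0 : ℤ) < L := by omega
  have : Nonempty (Fin L) := ⟨⟨0, hL⟩⟩
  obtain ⟨k, -, hk⟩ := Finset.exists_max_image (Finset.univ : Finset (Fin L)) t
    Finset.univ_nonempty
  have hinj : ∀ x y : ℤ, ¬ Cg L x y → ext L hL t x ≠ ext L hL t y := by
    intro x y hxy h
    apply hxy
    have h3 := h2 h
    have h4 := congrArg Fin.val h3
    simp only at h4
    have e1 := Int.emod_nonneg x hpos.ne'
    have e2 := Int.emod_nonneg y hpos.ne'
    have h5 : x % (L : ℤ) = y % L := by omega
    exact Int.dvd_of_emod_eq_zero (Int.emod_eq_emod_iff_emod_sub_eq_zero.1 h5)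
  refine ⟨(k : ℕ), ?_, fun x => (h1 _).1, fun x => (h1 _).2, hinj, ?_⟩
  · intro x
    unfold ext
    congr 1
    apply Fin.ext
    simp
  · intro x hx
    rw [ext_fin hL]
    have := hinj x (k : ℕ) hx
    rw [ext_fin hL] at this
    exact lt_of_le_of_ne (hk _ (Finset.mem_univ _)) this

/-- Two polynomials which agree at all admissible points are equal. -/
theorem dens_adm {L : ℕ} (hL : 0 < L) (p p' : MvPolynomial (Fin L) ℂ)
    (h : ∀ θ : ℤ → ℝ, (∃ m, Adm L θ m) →
      MvPolynomial.eval (fun k : Fin L => zc (θ (k : ℕ))) p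
        = MvPolynomial.eval (fun k : Fin L => zc (θ (k : ℕ))) p') : p = p' := by
  rw [← sub_eq_zero]
  apply dens
  intro t ht hinj
  have := h (ext L hL t) (ext_adm hL t ht hinj)
  simp only [ext_fin] at this
  rw [map_sub, this, sub_self]

end Pool.Agent.H12.QKZ
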