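import Mathlib

/-!
# Divided differences

For a polynomial `P` and two different variables `a, b` there is a polynomial `Q` with
`(X a - X b) Q = (q X b - q² X a) P(swap a b) - (q X a - q² X b) P`  (`q² + q + 1 = 0`), and the
exponents of `Q` lie between exponents of `P`.
-/

namespace Pool.Agent.H12.QKZ

open MvPolynomial

set_option linter.unusedSectionVars false
set_option linter.unusedSimpArgs false

variable {σ K : Type*} [DecidableEq σ] [Field K]

/-- `e'` arises from `e` by moving weight between the variables `a` and `b` without leaving the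
interval spanned by `e a` and `e b`. -/
def Between (a b : σ) (e e' : σ →₀ ℕ) : Prop :=
  (∀ c, c ≠ a → c ≠ b → e' c = e c) ∧ e' a + e' b = e a + e b ∧
    min (e a) (e b) ≤ e' a ∧ e' a ≤ max (e a) (e b)

theorem Between.refl (a b : σ) (e : σ →₀ ℕ) : Between a b e e :=
  ⟨fun _ _ _ => rfl, rfl, min_le_left _ _, le_max_left _ _⟩

/-- The right-hand side of the divided difference equation. -/
noncomputable def ddNum (q : K) (a b : σ) (P : MvPolynomial σ K) : MvPolynomial σ K :=
  (C q * X b - C (q ^ 2) * X a) * rename (Equiv.swap a b) P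
    - (C q * X a - C (q ^ 2) * X b) * P

theorem ddNum_add (q : K) (a b : σ) (P P' : MvPolynomial σ K) :
    ddNum q a b (P + P') = ddNum q a b P + ddNum q a b P' := by
  simp only [ddNum, map_add]; ring

/-- The property that `Q` is a divided difference of `P` with exponents between those of `P`. -/
def IsDD (q : K) (a b : σ) (P Q : MvPolynomial σ K) : Prop :=
  (X a - X b) * Q = ddNum q a b P ∧ ∀ e' ∈ Q.support, ∃ e ∈ P.support, Between a b e e'

/-- Remove the variables `a` and `b` from an exponent. -/
noncomputable def rest (a b : σ) (e : σ →₀ ℕ) : σ →₀ ℕ :=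
  e - Finsupp.single a (e a) - Finsupp.single b (e b)

theorem rest_left {a b : σ} (e : σ →₀ ℕ) : rest a b e a = 0 := by
  simp [rest]

theorem rest_right {a b : σ} (hab : a ≠ b) (e : σ →₀ ℕ) : rest a b e b = 0 := by
  simp [rest, Finsupp.single_apply, hab]

theorem rest_of_ne {a b c : σ} (hca : c ≠ a) (hcb : c ≠ b) (e : σ →₀ ℕ) : rest a b e c = e c := by
  simp [rest, Finsupp.single_apply, Ne.symm hca, Ne.symm hcb]

theorem rest_add {a b : σ} (hab : a ≠ b) (e : σ →₀ ℕ) :
    rest a b e + Finsupp.single a (e a) + Finsupp.single b (e b) = e := by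
  ext d
  by_cases hda : d = a
  · subst hda; simp [rest_left, Finsupp.single_apply, hab.symm]
  · by_cases hdb : d = b
    · subst hdb; simp [rest_right hab, Finsupp.single_apply, hab]
    · simp [rest_of_ne hda hdb, Finsupp.single_apply, Ne.symm hda, Ne.symm hdb]

/-- Split a monomial. -/
theorem monomial_split {a b : σ} (hab : a ≠ b) (e : σ →₀ ℕ) (c : K) :
    monomial e c = monomial (rest a b e) c * X a ^ (e a) * X b ^ (e b) := by
  rw [X_pow_eq_monomial, X_pow_eq_monomial, monomial_mul, monomial_mul, mul_one, mul_one,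
    rest_add hab]

theorem rename_rest {a b : σ} (hab : a ≠ b) (e : σ →₀ ℕ) (c : K) :
    rename (Equiv.swap a b) (monomial (rest a b e) c) = monomial (rest a b e) c := by
  rw [rename_monomial]
  have : Finsupp.mapDomain (⇑(Equiv.swap a b)) (rest a b e) = rest a b e := by
    ext d
    have h1 : (Finsupp.mapDomain (⇑(Equiv.swap a b)) (rest a b e)) d
        = (rest a b e) (Equiv.swap a b d) := by
      conv_lhs => rw [show d = Equiv.swap a b (Equiv.swap a b d) by simp]
      exact Finsupp.mapDomain_apply (Equiv.swap a b).injective _ _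
    rw [h1]
    by_cases hda : d = a
    · subst hda; rw [Equiv.swap_apply_left, rest_left, rest_right hab]
    · by_cases hdb : d = b
      · subst hdb; rw [Equiv.swap_apply_right, rest_left, rest_right hab]
      · rw [Equiv.swap_apply_of_ne_of_ne hda hdb]
  rw [this]

theorem rename_split {a b : σ} (hab : a ≠ b) (e : σ →₀ ℕ) (c : K) :
    rename (Equiv.swap a b) (monomial e c)
      = monomial (rest a b e) c * X b ^ (e a) * X a ^ (e b) := by
  rw [monomial_split hab e c, map_mul, map_mul, map_pow, map_pow, rename_X, rename_X,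
    Equiv.swap_apply_left, Equiv.swap_apply_right, rename_rest hab]

/-- All exponents of `Q` are between `e`. -/
def InT (a b : σ) (e : σ →₀ ℕ) (Q : MvPolynomial σ K) : Prop :=
  ∀ e', coeff e' Q ≠ 0 → Between a b e e'

theorem InT.add {a b : σ} {e : σ →₀ ℕ} {Q Q' : MvPolynomial σ K} (h : InT a b e Q)
    (h' : InT a b e Q') : InT a b e (Q + Q') := by
  intro e' he'
  rw [coeff_add] at he'
  by_cases h0 : coeff e' Q = 0
  · rw [h0, zero_add] at he'; exact h' e' he'
  · exact h e' h0

theorem InT.zero (a b : σ) (e : σ →₀ ℕ) : InT a b e (0 : MvPolynomial σ K) := by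
  intro e' he'; simp at he'

theorem InT.smulC {a b : σ} {e : σ →₀ ℕ} {Q : MvPolynomial σ K} (h : InT a b e Q) (x : K) :
    InT a b e (C x * Q) := by
  intro e' he'
  rw [coeff_C_mul] at he'
  exact h e' (right_ne_zero_of_mul he')

theorem InT.sum {a b : σ} {e : σ →₀ ℕ} {ι : Type*} {s : Finset ι} {Q : ι → MvPolynomial σ K}
    (h : ∀ i ∈ s, InT a b e (Q i)) : InT a b e (∑ i ∈ s, Q i) := by
  classical
  induction s using Finset.induction_on with
  | empty => simpa using InT.zero a b e
  | insert i s hi ih =>
    rw [Finset.sum_insert hi]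
    exact (h i (Finset.mem_insert_self _ _)).add
      (ih fun j hj => h j (Finset.mem_insert_of_mem hj))

theorem InT.mono {a b : σ} (hab : a ≠ b) (e : σ →₀ ℕ) (c : K) (α β : ℕ)
    (h1 : α + β = e a + e b) (h2 : min (e a) (e b) ≤ α) (h3 : α ≤ max (e a) (e b)) :
    InT a b e (monomial (rest a b e) c * X a ^ α * X b ^ β) := by
  intro e' he'
  rw [X_pow_eq_monomial, X_pow_eq_monomial, monomial_mul, monomial_mul, mul_one, mul_one,
    coeff_monomial] at he'
  split_ifs at he' with hh
  · subst hh
    have ha : (rest a b e + Finsupp.single a α + Finsupp.single b β) a = α := by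
      simp [rest_left, Finsupp.single_apply, hab.symm]
    have hb : (rest a b e + Finsupp.single a α + Finsupp.single b β) b = β := by
      simp [rest_right hab, Finsupp.single_apply, hab]
    refine ⟨fun d hda hdb => ?_, ?_, ?_, ?_⟩
    · simp [rest_of_ne hda hdb, Finsupp.single_apply, Ne.symm hda, Ne.symm hdb]
    · rw [ha, hb, h1]
    · rw [ha]; exact h2
    · rw [ha]; exact h3
  · exact absurd rfl he'

/-- The geometric part of the divided difference. -/
theorem InT.lin {a b : σ} (hab : a ≠ b) (e : σ →₀ ℕ) (c q : K) (l k : ℕ)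
    (hl : l = min (e a) (e b)) (hk : l + k = max (e a) (e b)) :
    InT a b e ((C q * X b - C (q ^ 2) * X a) *
      (monomial (rest a b e) c * (X a * X b) ^ l *
        ∑ i ∈ Finset.range k, X a ^ i * X b ^ (k - 1 - i))) := by
  have hsum : min (e a) (e b) + max (e a) (e b) = e a + e b := min_add_max _ _
  have h : (C q * X b - C (q ^ 2) * X a) *
      (monomial (rest a b e) c * (X a * X b) ^ l *
        ∑ i ∈ Finset.range k, X a ^ i * X b ^ (k - 1 - i))
      = ∑ i ∈ Finset.range k, (C q * (monomial (rest a b e) c * X a ^ (l + i) *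
            X b ^ (l + (k - 1 - i) + 1))
          + C (-q ^ 2) * (monomial (rest a b e) c * X a ^ (l + i + 1) *
            X b ^ (l + (k - 1 - i)))) := by
    rw [Finset.mul_sum, Finset.mul_sum]
    refine Finset.sum_congr rfl fun i _ => ?_
    rw [map_neg]
    ring
  rw [h]
  refine InT.sum fun i hi => ?_
  rw [Finset.mem_range] at hi
  refine (InT.smulC (InT.mono hab e c _ _ ?_ ?_ ?_) _).add
    (InT.smulC (InT.mono hab e c _ _ ?_ ?_ ?_) _) <;> omega

theorem exists_dd_monomial {q : K} (hq : q ^ 2 + q + 1 = 0) {a b : σ} (hab : a ≠ b)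
    (e : σ →₀ ℕ) (c : K) : ∃ Q : MvPolynomial σ K,
      (X a - X b) * Q = ddNum q a b (monomial e c) ∧ InT a b e Q := by
  have hq' : (C q : MvPolynomial σ K) + C (q ^ 2) = -1 := by
    rw [← map_add, ← map_one C, ← map_neg]
    congr 1; linear_combination hq
  rcases le_total (e b) (e a) with h | h
  · obtain ⟨k, hk⟩ := Nat.exists_eq_add_of_le h
    refine ⟨monomial (rest a b e) c * X a ^ (e a) * X b ^ (e b) +
      C (-1) * ((C q * X b - C (q ^ 2) * X a) *
        (monomial (rest a b e) c * (X a * X b) ^ (e b) *
        ∑ i ∈ Finset.range k, X a ^ i * X b ^ (k - 1 - i))), ?_, ?_⟩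
    · unfold ddNum
      rw [rename_split hab, monomial_split hab e c]
      have hg := Commute.geom_sum₂_mul (Commute.all (X a : MvPolynomial σ K) (X b)) k
      rw [map_neg, map_one, hk]
      linear_combination
        (-(C q * X b - C (q ^ 2) * X a) * monomial (rest a b e) c * (X a * X b) ^ (e b)) * hg
        + monomial (rest a b e) c * (X a * X b) ^ (e b) * X a ^ k * (X a - X b) * hq'
    · refine (InT.mono hab e c _ _ rfl (min_le_left _ _) (le_max_left _ _)).add (InT.smulC ?_ _)
      exact InT.lin hab e c q _ _ (by rw [min_eq_right h]) (by rw [max_eq_left h, hk])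
  · obtain ⟨k, hk⟩ := Nat.exists_eq_add_of_le h
    refine ⟨monomial (rest a b e) c * X a ^ (e a) * X b ^ (e b) +
      (C q * X b - C (q ^ 2) * X a) *
        (monomial (rest a b e) c * (X a * X b) ^ (e a) *
        ∑ i ∈ Finset.range k, X a ^ i * X b ^ (k - 1 - i)), ?_, ?_⟩
    · unfold ddNum
      rw [rename_split hab, monomial_split hab e c]
      have hg := Commute.geom_sum₂_mul (Commute.all (X a : MvPolynomial σ K) (X b)) k
      rw [hk]
      linear_combination
        ((C q * X b - C (q ^ 2) * X a) * monomial (rest a b e) c * (X a * X b) ^ (e a)) * hg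
        + monomial (rest a b e) c * (X a * X b) ^ (e a) * X b ^ k * (X a - X b) * hq'
    · refine (InT.mono hab e c _ _ rfl (min_le_left _ _) (le_max_left _ _)).add ?_
      exact InT.lin hab e c q _ _ (by rw [min_eq_left h]) (by rw [max_eq_right h, hk])

/-- Divided differences of polynomials exist. -/
theorem exists_dd {q : K} (hq : q ^ 2 + q + 1 = 0) {a b : σ} (hab : a ≠ b)
    (P : MvPolynomial σ K) : ∃ Q, IsDD q a b P Q := by
  classical
  choose F hF1 hF2 using fun (e : σ →₀ ℕ) (c : K) => exists_dd_monomial hq hab e c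
  refine ⟨∑ e ∈ P.support, F e (coeff e P), ?_, ?_⟩
  · conv_rhs => rw [P.as_sum]
    rw [Finset.mul_sum]
    have hlin : ∀ s : Finset (σ →₀ ℕ), ddNum q a b (∑ e ∈ s, monomial e (coeff e P))
        = ∑ e ∈ s, ddNum q a b (monomial e (coeff e P)) := by
      intro s
      induction s using Finset.induction_on with
      | empty => simp [ddNum]
      | insert i s hi ih => rw [Finset.sum_insert hi, Finset.sum_insert hi, ddNum_add, ih]
    rw [hlin]
    exact Finset.sum_congr rfl fun e _ => hF1 e _
  · intro e' he'
    rw [mem_support_iff, coeff_sum] at he'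
    obtain ⟨e, he, hne⟩ := Finset.exists_ne_zero_of_sum_ne_zero he'
    exact ⟨e, he, hF2 e _ e' hne⟩

end Pool.Agent.H12.QKZ
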