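import Mathlib

/-!
# Fixed vectors of a stochastic matrix with a common reachable state

`P` is a real square matrix with nonnegative entries and column sums `1`, and some power of `P` has a
strictly positive row.  Then `P` has exactly one fixed vector whose coordinates sum to `1`.
-/

namespace Pool.Agent.H12.QKZ

open Matrix Finset

variable {S : Type*} [Fintype S] [DecidableEq S]

/-- Column-stochastic matrices. -/
def ColStoch (P : Matrix S S ℝ) : Prop := (∀ i j, 0 ≤ P i j) ∧ ∀ j, ∑ i, P i j = 1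

theorem ColStoch.one : ColStoch (1 : Matrix S S ℝ) := by
  refine ⟨fun i j => ?_, fun j => ?_⟩
  · rw [Matrix.one_apply]; split_ifs <;> norm_num
  · simp [Matrix.one_apply]

theorem ColStoch.mul {P Q : Matrix S S ℝ} (hP : ColStoch P) (hQ : ColStoch Q) :
    ColStoch (P * Q) := by
  refine ⟨fun i j => ?_, fun j => ?_⟩
  · rw [Matrix.mul_apply]
    exact Finset.sum_nonneg fun k _ => mul_nonneg (hP.1 i k) (hQ.1 k j)
  · simp only [Matrix.mul_apply]
    rw [Finset.sum_comm]
    simp_rw [← Finset.sum_mul, hP.2, one_mul]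
    exact hQ.2 j

theorem ColStoch.pow {P : Matrix S S ℝ} (hP : ColStoch P) (k : ℕ) : ColStoch (P ^ k) := by
  induction k with
  | zero => rw [pow_zero]; exact ColStoch.one
  | succ k ih => rw [pow_succ]; exact ih.mul hP

theorem ColStoch.sum_mulVec {P : Matrix S S ℝ} (hP : ColStoch P) (v : S → ℝ) :
    ∑ i, (P *ᵥ v) i = ∑ j, v j := by
  simp only [Matrix.mulVec, dotProduct]
  rw [Finset.sum_comm]
  simp_rw [← Finset.sum_mul, hP.2, one_mul]

theorem pow_mulVec_fixed {P : Matrix S S ℝ} {v : S → ℝ} (h : P *ᵥ v = v) (k : ℕ) :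
    (P ^ k) *ᵥ v = v := by
  induction k with
  | zero => rw [pow_zero, Matrix.one_mulVec]
  | succ k ih => rw [pow_succ, ← Matrix.mulVec_mulVec, h, ih]

/-- A fixed vector with coordinate sum `0` vanishes. -/
theorem fixed_sum_zero {P : Matrix S S ℝ} (hP : ColStoch P) {k : ℕ} {s : S}
    (hpos : ∀ j, 0 < (P ^ k) s j) {v : S → ℝ} (hv : P *ᵥ v = v) (hs : ∑ i, v i = 0) : v = 0 := by
  classical
  by_contra hne
  set Q := P ^ k with hQ
  have hQs : ColStoch Q := hP.pow k
  have hQv : Q *ᵥ v = v := pow_mulVec_fixed hv k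
  have hS : (Finset.univ : Finset S).Nonempty := ⟨s, Finset.mem_univ _⟩
  obtain ⟨j0, -, hj0⟩ := Finset.exists_min_image (Finset.univ : Finset S) (fun j => Q s j) hS
  set c := Q s j0 with hc
  have hc0 : 0 < c := hpos j0
  -- `w i = ∑_j (Q i j - [i = s] c) v j`
  have hkey : ∀ i, |v i| ≤ ∑ j, (Q i j - if i = s then c else 0) * |v j| := by
    intro i
    have h1 : v i = ∑ j, (Q i j - if i = s then c else 0) * v j := by
      have : ∑ j, (Q i j - if i = s then c else 0) * v j
          = ∑ j, Q i j * v j - (if i = s then c else 0) * ∑ j, v j := by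
        rw [Finset.mul_sum, ← Finset.sum_sub_distrib]
        exact Finset.sum_congr rfl fun j _ => by ring
      rw [this, hs, mul_zero, sub_zero]
      conv_lhs => rw [← hQv]
      rfl
    calc |v i| = |∑ j, (Q i j - if i = s then c else 0) * v j| := by rw [← h1]
      _ ≤ ∑ j, |(Q i j - if i = s then c else 0) * v j| := Finset.abs_sum_le_sum_abs _ _
      _ = ∑ j, (Q i j - if i = s then c else 0) * |v j| := by
          refine Finset.sum_congr rfl fun j _ => ?_
          rw [abs_mul, abs_of_nonneg]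
          by_cases his : i = s
          · rw [if_pos his, his]; linarith [hj0 j (Finset.mem_univ _)]
          · rw [if_neg his, sub_zero]; exact hQs.1 i j
  have hsum : ∑ i, |v i| ≤ (1 - c) * ∑ j, |v j| := by
    calc ∑ i, |v i| ≤ ∑ i, ∑ j, (Q i j - if i = s then c else 0) * |v j| :=
          Finset.sum_le_sum fun i _ => hkey i
      _ = ∑ j, (∑ i, (Q i j - if i = s then c else 0)) * |v j| := by
          rw [Finset.sum_comm]; simp_rw [Finset.sum_mul]
      _ = ∑ j, (1 - c) * |v j| := by
          refine Finset.sum_congr rfl fun j _ => ?_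
          rw [Finset.sum_sub_distrib, hQs.2, Finset.sum_ite_eq' Finset.univ s]
          simp
      _ = (1 - c) * ∑ j, |v j| := by rw [Finset.mul_sum]
  have hpos' : 0 < ∑ j, |v j| := by
    obtain ⟨j, hj⟩ := Function.ne_iff.1 hne
    exact Finset.sum_pos' (fun j _ => abs_nonneg _) ⟨j, Finset.mem_univ _, abs_pos.2 hj⟩
  nlinarith

/-- Existence and uniqueness of the normalised fixed vector. -/
theorem exists_unique_fixed {P : Matrix S S ℝ} (hP : ColStoch P) {k : ℕ} {s : S}
    (hpos : ∀ j, 0 < (P ^ k) s j) : ∃! v : S → ℝ, P *ᵥ v = v ∧ ∑ i, v i = 1 := by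
  classical
  have hdet : (P - 1).det = 0 := by
    rw [← Matrix.exists_vecMul_eq_zero_iff]
    refine ⟨fun _ => 1, ?_, ?_⟩
    · intro h; exact one_ne_zero (congrFun h s)
    · funext j
      rw [Matrix.vecMul_sub, Matrix.vecMul_one]
      simp only [Pi.sub_apply, Matrix.vecMul, dotProduct, one_mul, Pi.zero_apply]
      rw [hP.2]; ring
  obtain ⟨v, hv0, hv⟩ := Matrix.exists_mulVec_eq_zero_iff.2 hdet
  have hfix : P *ᵥ v = v := by
    rw [Matrix.sub_mulVec, Matrix.one_mulVec, sub_eq_zero] at hv; exact hv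
  have hsum : ∑ i, v i ≠ 0 := fun h => hv0 (fixed_sum_zero hP hpos hfix h)
  refine ⟨fun i => (∑ i, v i)⁻¹ * v i, ⟨?_, ?_⟩, ?_⟩
  · have : (fun i => (∑ i, v i)⁻¹ * v i) = (∑ i, v i)⁻¹ • v := by
      funext i; simp
    rw [this, Matrix.mulVec_smul, hfix]
  · rw [← Finset.mul_sum, inv_mul_cancel₀ hsum]
  · rintro w ⟨hw, hw1⟩
    have h0 : (w - fun i => (∑ i, v i)⁻¹ * v i) = 0 := by
      apply fixed_sum_zero hP hpos
      · have : (fun i => (∑ i, v i)⁻¹ * v i) = (∑ i, v i)⁻¹ • v := by
          funext i; simp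
        rw [Matrix.mulVec_sub, this, Matrix.mulVec_smul, hfix, hw]
      · simp only [Pi.sub_apply]
        rw [Finset.sum_sub_distrib, hw1, ← Finset.mul_sum, inv_mul_cancel₀ hsum, sub_self]
    exact sub_eq_zero.1 h0

end Pool.Agent.H12.QKZ
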