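import Pool.Agent.H12.QKZ.Lam

/-!
# The renormalised vector and its polynomiality
-/

namespace Pool.Agent.H12.QKZ

open H56.EX Matrix MvPolynomial

variable {L : ℕ}

theorem gp_congr {n : ℕ} {s s' : ℕ → ℂ} (h : ∀ i < n, s i = s' i) : gp n s = gp n s' := by
  unfold gp
  refine Finset.prod_congr rfl fun j hj => Finset.prod_congr rfl fun i hi => ?_
  rw [Finset.mem_range] at hi hj
  rw [h j hj, h i (hi.trans hj)]

/-- The normalising factor. -/
noncomputable def lam (B : Pat L) (θ : ℤ → ℝ) : ℂ :=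
  gp L (fun k => zc (θ (k : ℕ))) / (psiR L θ B : ℂ)

theorem sw_congr {i j : ℤ} (hc : Cg L i j) (θ : ℤ → ℝ) : sw L i θ = sw L j θ := by
  funext x
  unfold sw
  have e1 : Cg L x i ↔ Cg L x j := ⟨fun h' => Cg.trans' h' hc,
    fun h' => Cg.trans' h' (Cg.symm' hc)⟩
  have e2 : Cg L x (i + 1) ↔ Cg L x (j + 1) := ⟨fun h' => Cg.trans' h' (Cg.add 1 hc),
    fun h' => Cg.trans' h' (Cg.symm' (Cg.add 1 hc))⟩
  simp only [e1, e2]

theorem sw_nat {θ : ℤ → ℝ} (hL : 2 ≤ L) {k : ℕ} (hk : k + 1 < L) {i : ℕ} (hi : i < L) :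
    sw L k θ i = θ (Equiv.swap k (k + 1) i : ℕ) := by
  by_cases h1 : i = k
  · subst h1
    rw [sw_of_i (Cg.refl' _), Equiv.swap_apply_left]; push_cast; rfl
  by_cases h2 : i = k + 1
  · subst h2
    rw [sw_of_succ hL (by push_cast; exact Cg.refl' _), Equiv.swap_apply_right]
    congr 1; push_cast; ring
  · rw [Equiv.swap_apply_of_ne_of_ne h1 h2, sw_other]
    · intro h
      have := (cg_iff_eq_zero (by omega) (by omega)).1 h
      omega
    · intro h
      have := (cg_iff_eq_zero (by omega) (by omega)).1 h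
      omega

theorem lam_sw_aux {B : Pat L} (hB : IsBase B) {θ : ℤ → ℝ} (hθ : Oset L θ) (i : ℤ)
    (hi : ¬ Cg L (i + 1) 0) : lam B (sw L i θ) = lam B θ := by
  have hL := B.two_le
  have hpos : (0 : ℤ) < L := by omega
  obtain ⟨k, hk⟩ : ∃ k : ℕ, (k : ℤ) = i % L :=
    ⟨(i % L).toNat, Int.toNat_of_nonneg (Int.emod_nonneg _ hpos.ne')⟩
  have hc : Cg L i k := by rw [hk]; exact cg_emod i
  have hkL : k < L := by
    have := Int.emod_lt_of_pos i hpos
    omega
  have hk1 : k + 1 < L := by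
    by_contra hcon
    apply hi
    have h1 : Cg L (i + 1) (k + 1) := Cg.add 1 hc
    refine Cg.trans' h1 ?_
    have : (k : ℤ) + 1 = L := by omega
    rw [this]; unfold Cg; simp
  have hi' : ¬ Cg L ((k : ℤ) + 1) 0 := fun h => hi (Cg.trans' (Cg.add 1 hc) h)
  rw [sw_congr hc]
  have h1 : gp L (fun j => zc (sw L k θ (j : ℕ)))
      = gp L (fun j => (fun j : ℕ => zc (θ (j : ℕ))) (Equiv.swap k (k + 1) j)) := by
    apply gp_congr
    intro j hj
    simp only
    rw [sw_nat hL hk1 hj]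
  have h2 := gp_swap (fun j : ℕ => zc (θ (j : ℕ))) k L (by omega)
  rw [← h1] at h2
  have h3 := psiC_exch B hθ k B
  rw [eop_base hB hi', mul_zero, add_zero] at h3
  have n1 := psiR_base_ne hB hθ
  have n2 := psiR_base_ne hB (hθ.sw hL k)
  have n1' : (psiR L θ B : ℂ) ≠ 0 := by exact_mod_cast n1
  have n2' : (psiR L (sw L k θ) B : ℂ) ≠ 0 := by exact_mod_cast n2
  have d1 := hθ.den (k + 1) k
  have d2 := hθ.den k (k + 1)
  unfold lam
  rw [div_eq_div_iff n2' n1']
  push_cast at h2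
  apply mul_left_cancel₀ d1
  linear_combination (psiR L θ B : ℂ) * h2 - gp L (fun j : ℕ => zc (θ (j : ℕ))) * h3

theorem lam_closed {B : Pat L} (hB : IsBase B) (c : ℂ) : ∀ θ : ℤ → ℝ, Oset L θ → ∀ i : ℤ,
    ¬ Cg L (i + 1) 0 → (fun θ => lam B θ = c) θ → (fun θ => lam B θ = c) (sw L i θ) := by
  intro θ hθ i hi h
  show lam B (sw L i θ) = c
  rw [lam_sw_aux hB hθ i hi]; exact h

theorem lam_sw {B : Pat L} (hB : IsBase B) {θ : ℤ → ℝ} (hθ : Oset L θ) (i : ℤ) :
    lam B (sw L i θ) = lam B θ :=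
  closure_sw B.two_le _ (lam_closed hB (lam B θ)) hθ rfl i

theorem lam_rot {B : Pat L} (hB : IsBase B) {θ : ℤ → ℝ} (hθ : Oset L θ) :
    lam B (fun x => θ (x - 1)) = lam B θ :=
  closure_right B.two_le _ (lam_closed hB (lam B θ)) hθ rfl

theorem lam_shift {B : Pat L} (hB : IsBase B) {θ : ℤ → ℝ} (hθ : Oset L θ) (k : ℕ) :
    lam B (fun x => θ (x + k)) = lam B θ :=
  closure_shift B.two_le _ (lam_closed hB (lam B θ)) hθ rfl k

/-- The renormalised vector at admissible angles. -/
noncomputable def PsiN (B : Pat L) (P : Pat L) (θ : ℤ → ℝ) : ℂ := lam B θ * psiR L θ P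

theorem PsiN_exch {B : Pat L} (hB : IsBase B) {θ : ℤ → ℝ} (h : Oset L θ) (i : ℤ) (P : Pat L) :
    (q * zc (θ (i + 1)) - q⁻¹ * zc (θ i)) * PsiN B P (sw L i θ)
      = (q * zc (θ i) - q⁻¹ * zc (θ (i + 1))) * PsiN B P θ
        + (zc (θ i) - zc (θ (i + 1))) * eop i (fun P' => PsiN B P' θ) P := by
  have h1 := psiC_exch B h i P
  have h2 : eop i (fun P' => PsiN B P' θ) P
      = lam B θ * eop i (fun P' => (psiR L θ P' : ℂ)) P := by
    unfold eop PsiN
    rw [Finset.mul_sum]
    refine Finset.sum_congr rfl fun P' _ => ?_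
    split_ifs <;> simp
  rw [h2]
  unfold PsiN
  rw [lam_sw hB h]
  linear_combination lam B θ * h1

theorem rot_inj {P P' : Pat L} (h : rot P = rot P') : P = P' := by
  apply Pat.ext
  funext x
  have := congrArg (fun R : Pat L => R.m (x + 1)) h
  simp only [rot_m, add_sub_cancel_right, add_left_inj] at this
  exact this

theorem psiR_rot' {θ : ℤ → ℝ} (P : Pat L) (h : Oset L θ) :
    psiR L (fun x => θ (x - 1)) (rot P) = psiR L θ P := by
  obtain ⟨m, hm⟩ := h
  have h1 := congrFun (psiR_rot P hm) (rot P)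
  rw [← h1]
  unfold RotM
  rw [mapMat_mulVec, Finset.sum_eq_single P]
  · rw [if_pos rfl]
  · intro P' _ hne
    rw [if_neg]
    intro h'
    exact hne (rot_inj h')
  · intro h; exact absurd (Finset.mem_univ _) h

theorem PsiN_rot {B : Pat L} (hB : IsBase B) {θ : ℤ → ℝ} (h : Oset L θ) (P : Pat L) :
    PsiN B (rot P) (fun x => θ (x - 1)) = PsiN B P θ := by
  unfold PsiN
  rw [lam_rot hB h, psiR_rot' P h]

theorem PsiN_base {B : Pat L} (hB : IsBase B) {θ : ℤ → ℝ} (h : Oset L θ) :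
    PsiN B B θ = gp L (fun k => zc (θ (k : ℕ))) := by
  unfold PsiN lam
  have n1 := psiR_base_ne hB h
  have n1' : (psiR L θ B : ℂ) ≠ 0 := by exact_mod_cast n1
  rw [div_mul_cancel₀ _ n1']

theorem PsiN_rot_iter {B : Pat L} (hB : IsBase B) {θ : ℤ → ℝ} (h : Oset L θ) (P : Pat L) (k : ℕ) :
    PsiN B (rot^[k] P) θ = PsiN B P (fun x => θ (x + k)) := by
  induction k with
  | zero => simp
  | succ k ih =>
    rw [Function.iterate_succ', Function.comp_apply]
    have h1 := PsiN_rot hB (h.rot') (rot^[k] P)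
    simp only [sub_add_cancel] at h1
    rw [h1]
    -- now shift: `PsiN (rot^[k] P) (θ (· + 1))`
    clear h1 ih
    induction k generalizing θ with
    | zero => simp
    | succ k ih2 =>
      rw [Function.iterate_succ', Function.comp_apply]
      have h2 := PsiN_rot hB (h.rot'.rot') (rot^[k] P)
      have e : (fun x : ℤ => θ (x + 1)) = fun x : ℤ => θ (x - 1 + 1 + 1) := by
        funext x; congr 1; ring
      rw [e, h2]
      have h3 := ih2 h.rot'
      rw [h3]
      congr 1
      funext x; congr 1; push_cast; ring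

/-- Cyclic shift of `Fin L`. -/
def cyc (L : ℕ) (k : ℕ) (i : Fin L) : Fin L :=
  ⟨(i + k) % L, Nat.mod_lt _ (Nat.pos_of_ne_zero (by rintro rfl; exact i.elim0))⟩

theorem cyc_injective (L k : ℕ) : Function.Injective (cyc L k) := by
  intro a b h
  have h1 := congrArg Fin.val h
  simp only [cyc] at h1
  have h2 : (a : ℕ) ≡ b [MOD L] := Nat.ModEq.add_right_cancel' k h1
  exact Fin.ext (Nat.ModEq.eq_of_lt_of_lt h2 a.isLt b.isLt)

/-- Cyclic shift as a permutation. -/
noncomputable def cycE (L k : ℕ) : Equiv.Perm (Fin L) :=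
  Equiv.ofBijective (cyc L k) ((Fintype.bijective_iff_injective_and_card _).2
    ⟨cyc_injective L k, rfl⟩)

theorem eval_cyc {α : Type*} {f : ℤ → α} (hf : ∀ x, f (x + L) = f x) (k : ℕ) (i : Fin L) :
    f ((cycE L k i : Fin L) : ℕ) = f ((i : ℕ) + k) := by
  apply per_dvd_fun hf
  show Cg L (((i + k) % L : ℕ) : ℤ) ((i : ℕ) + k)
  unfold Cg
  push_cast
  rw [show ((i : ℤ) + k) % L - (i + k) = -((i + k) - (i + k) % L) by ring, dvd_neg]
  exact Int.dvd_self_sub_emod

/-- Index of a position. -/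
def idx (hL : 0 < L) (i : ℤ) : Fin L :=
  ⟨(i % (L : ℤ)).toNat, by
    have h1 := Int.emod_lt_of_pos i (show (0 : ℤ) < L by omega)
    have h2 := Int.emod_nonneg i (show (L : ℤ) ≠ 0 by omega)
    omega⟩

theorem idx_cast (hL : 0 < L) (i : ℤ) : ((idx hL i : Fin L) : ℤ) = i % L := by
  unfold idx
  exact Int.toNat_of_nonneg (Int.emod_nonneg _ (by omega))

theorem idx_cg (hL : 0 < L) (i : ℤ) : Cg L i ((idx hL i : Fin L) : ℕ) := by
  have := idx_cast hL i
  rw [this]; exact cg_emod i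

theorem idx_ne (hL : 0 < L) (hL2 : 2 ≤ L) (i : ℤ) : idx hL i ≠ idx hL (i + 1) := by
  intro h
  have h1 := idx_cg hL i
  have h2 := idx_cg hL (i + 1)
  rw [h] at h1
  exact not_Cg_succ hL2 i (Cg.trans' h1 (Cg.symm' h2))

theorem idx_iff (hL : 0 < L) (i : ℤ) (k : Fin L) : k = idx hL i ↔ Cg L (k : ℕ) i := by
  constructor
  · rintro rfl; exact Cg.symm' (idx_cg hL i)
  · intro h
    have h1 := Cg.trans' h (idx_cg hL i)
    have h2 := k.isLt
    have h3 := (idx hL i).isLt
    have := (cg_iff_eq_zero (by omega) (by omega)).1 h1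
    exact Fin.ext (by exact_mod_cast this)

/-- Evaluation of a swapped polynomial. -/
theorem eval_swap {α : Type*} {f : ℤ → α} (hf : ∀ x, f (x + L) = f x) (hL : 0 < L)
    (i : ℤ) (k : Fin L) :
    f ((Equiv.swap (idx hL i) (idx hL (i + 1)) k : Fin L) : ℕ)
      = (if Cg L (k : ℕ) i then f ((k : ℕ) + 1) else if Cg L (k : ℕ) (i + 1) then f ((k : ℕ) - 1)
          else f (k : ℕ)) := by
  by_cases h1 : Cg L (k : ℕ) i
  · rw [if_pos h1, (idx_iff hL i k).2 h1, Equiv.swap_apply_left]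
    apply per_dvd_fun hf
    exact Cg.trans' (Cg.symm' (idx_cg hL (i + 1))) (Cg.add 1 (idx_cg hL i))
  by_cases h2 : Cg L (k : ℕ) (i + 1)
  · rw [if_neg h1, if_pos h2, (idx_iff hL (i + 1) k).2 h2, Equiv.swap_apply_right]
    apply per_dvd_fun hf
    have h3 := Cg.sub 1 (idx_cg hL (i + 1))
    rw [add_sub_cancel_right] at h3
    exact Cg.trans' (Cg.symm' (idx_cg hL i)) h3
  · rw [if_neg h1, if_neg h2, Equiv.swap_apply_of_ne_of_ne]
    · exact fun h => h1 ((idx_iff hL i k).1 h)
    · exact fun h => h2 ((idx_iff hL (i + 1) k).1 h)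

/-- Polynomiality of all components. -/
theorem exists_poly {B : Pat L} (hB : IsBase B) (P : Pat L) :
    ∃ p : MvPolynomial (Fin L) ℂ, JointBd loF (upF L) p ∧
      ∀ θ : ℤ → ℝ, Oset L θ → PsiN B P θ = eval (fun k : Fin L => zc (θ (k : ℕ))) p := by
  classical
  have hL2 := B.two_le
  have hL : 0 < L := by omega
  revert P
  apply pat_induction
  · intro k B' hB'
    rw [base_unique hB' hB]
    refine ⟨rename (cycE L k) (PhiP L), (PhiP_bd L).rename _, fun θ hθ => ?_⟩
    rw [PsiN_rot_iter hB hθ, PsiN_base hB (hθ.shift k), ← eval_PhiP, eval_rename]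
    have e2 : (fun i : Fin L => zc (θ (((i : ℕ) : ℤ) + k)))
        = (fun i : Fin L => zc (θ ((i : ℕ) : ℤ))) ∘ (cycE L k) := by
      funext i
      simp only [Function.comp_apply]
      exact (eval_cyc (f := fun x => zc (θ x)) (fun x => by rw [hθ.per]) k i).symm
    exact congrArg (fun g => eval g (PhiP L)) e2
  · intro P i hi hQ hother
    obtain ⟨pQ, hpQ, hpQ'⟩ := hQ
    obtain ⟨Q, hQ⟩ := exists_dd q_sq (idx_ne hL hL2 i) pQ
    choose! f hf1 hf2 using hother
    refine ⟨Q - ∑ P' : Pat L, (if E i P' = E i P ∧ P' ≠ P then f P' else 0), ?_, ?_⟩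
    · refine (hpQ.dd (idx_ne hL hL2 i) hQ).sub (JointBd.sum _ _ fun P' _ => ?_)
      split_ifs with h
      · exact hf1 P' h.1 h.2
      · exact JointBd.zero _ _
    · intro θ hθ
      have h1 := PsiN_exch hB hθ i (E i P)
      rw [hpQ' _ (hθ.sw hL2 i), hpQ' _ hθ] at h1
      have h2 := congrArg (eval (fun k : Fin L => zc (θ (k : ℕ)))) hQ.1
      unfold ddNum at h2
      simp only [map_mul, map_sub, eval_X, eval_C, eval_rename] at h2
      have e1 : zc (θ ((idx hL i : Fin L) : ℕ)) = zc (θ i) := by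
        rw [per_dvd_fun hθ.per (idx_cg hL i)]
      have e2 : zc (θ ((idx hL (i + 1) : Fin L) : ℕ)) = zc (θ (i + 1)) := by
        rw [per_dvd_fun hθ.per (idx_cg hL (i + 1))]
      have e3 : (fun k : Fin L => zc (θ (k : ℕ))) ∘ (Equiv.swap (idx hL i) (idx hL (i + 1)))
          = fun k : Fin L => zc (sw L i θ (k : ℕ)) := by
        funext k
        simp only [Function.comp_apply]
        rw [eval_swap (f := fun x => zc (θ x)) (fun x => by rw [hθ.per]) hL]
        unfold sw
        split_ifs <;> rfl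
      rw [e1, e2, e3] at h2
      have hz := sub_ne_zero.2 (hθ.zne hL2 i)
      have h3 : eop i (fun P' => PsiN B P' θ) (E i P)
          = eval (fun k : Fin L => zc (θ (k : ℕ))) Q := by
        apply mul_left_cancel₀ hz
        rw [h2, ← q_inv]
        linear_combination -h1
      have h4 : eop i (fun P' => PsiN B P' θ) (E i P) = PsiN B P θ
          + ∑ P' : Pat L, (if E i P' = E i P ∧ P' ≠ P then PsiN B P' θ else 0) := by
        unfold eop
        rw [← Finset.add_sum_erase Finset.univ _ (Finset.mem_univ P), if_pos rfl]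
        congr 1
        rw [← Finset.add_sum_erase Finset.univ (fun P' : Pat L =>
          (if E i P' = E i P ∧ P' ≠ P then PsiN B P' θ else 0)) (Finset.mem_univ P)]
        rw [if_neg (by simp), zero_add]
        refine Finset.sum_congr rfl fun P' hP' => ?_
        rw [Finset.mem_erase] at hP'
        by_cases hE : E i P' = E i P
        · rw [if_pos hE, if_pos ⟨hE, hP'.1⟩]
        · rw [if_neg hE, if_neg (fun h => hE h.1)]
      rw [map_sub, ← h3, h4, map_sum]
      have h5 : ∀ P' : Pat L, eval (fun k : Fin L => zc (θ (k : ℕ)))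
          (if E i P' = E i P ∧ P' ≠ P then f P' else 0)
          = if E i P' = E i P ∧ P' ≠ P then PsiN B P' θ else 0 := by
        intro P'
        split_ifs with h
        · rw [hf2 P' h.1 h.2 θ hθ]
        · simp
      rw [Finset.sum_congr rfl fun P' _ => h5 P']
      ring

end Pool.Agent.H12.QKZ
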