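import Pool.Agent.H12.QKZ.Support
import Pool.Agent.H56.EX.Defs

/-!
# The base component
-/

namespace Pool.Agent.H12.QKZ

open H56.EX MvPolynomial

/-- Product formula of the base component, as a function of a sequence. -/
noncomputable def gp (n : ℕ) (s : ℕ → ℂ) : ℂ :=
  ∏ j ∈ Finset.range n, ∏ i ∈ Finset.range j, (q * s j - q⁻¹ * s i) / (q - q⁻¹)

theorem prod_range_swap {n k : ℕ} (hk : k + 2 ≤ n) (f : ℕ → ℂ) :
    ∏ i ∈ Finset.range n, f (Equiv.swap k (k + 1) i) = ∏ i ∈ Finset.range n, f i := by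
  refine Finset.prod_equiv (Equiv.swap k (k + 1)) ?_ (fun _ _ => rfl)
  intro i
  simp only [Finset.mem_range]
  by_cases h1 : i = k
  · subst h1; rw [Equiv.swap_apply_left]; omega
  · by_cases h2 : i = k + 1
    · subst h2; rw [Equiv.swap_apply_right]; omega
    · rw [Equiv.swap_apply_of_ne_of_ne h1 h2]

theorem gp_swap (s : ℕ → ℂ) (k : ℕ) : ∀ n : ℕ, k + 2 ≤ n →
    (q * s (k + 1) - q⁻¹ * s k) * gp n (fun i => s (Equiv.swap k (k + 1) i))
      = (q * s k - q⁻¹ * s (k + 1)) * gp n s := by
  intro n hn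
  induction n, hn using Nat.le_induction with
  | base =>
    unfold gp
    rw [Finset.prod_range_succ, Finset.prod_range_succ, Finset.prod_range_succ,
      Finset.prod_range_succ]
    have h1 : ∀ j ∈ Finset.range k, ∏ i ∈ Finset.range j,
        (q * s (Equiv.swap k (k + 1) j) - q⁻¹ * s (Equiv.swap k (k + 1) i)) / (q - q⁻¹)
        = ∏ i ∈ Finset.range j, (q * s j - q⁻¹ * s i) / (q - q⁻¹) := by
      intro j hj
      rw [Finset.mem_range] at hj
      rw [Equiv.swap_apply_of_ne_of_ne (by omega) (by omega)]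
      refine Finset.prod_congr rfl fun i hi => ?_
      rw [Finset.mem_range] at hi
      rw [Equiv.swap_apply_of_ne_of_ne (by omega) (by omega)]
    have h2 : ∀ t : ℂ, ∏ i ∈ Finset.range k,
        (q * t - q⁻¹ * s (Equiv.swap k (k + 1) i)) / (q - q⁻¹)
        = ∏ i ∈ Finset.range k, (q * t - q⁻¹ * s i) / (q - q⁻¹) := by
      intro t
      refine Finset.prod_congr rfl fun i hi => ?_
      rw [Finset.mem_range] at hi
      rw [Equiv.swap_apply_of_ne_of_ne (by omega) (by omega)]
    rw [Finset.prod_congr rfl h1, Finset.prod_range_succ, Finset.prod_range_succ, h2, h2]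
    simp only [Equiv.swap_apply_left, Equiv.swap_apply_right]
    ring
  | succ n hn ih =>
    unfold gp at ih ⊢
    rw [Finset.prod_range_succ, Finset.prod_range_succ, ← mul_assoc, ih]
    have h1 : ∏ i ∈ Finset.range n,
        (q * s (Equiv.swap k (k + 1) n) - q⁻¹ * s (Equiv.swap k (k + 1) i)) / (q - q⁻¹)
        = ∏ i ∈ Finset.range n, (q * s n - q⁻¹ * s i) / (q - q⁻¹) := by
      rw [Equiv.swap_apply_of_ne_of_ne (by omega : n ≠ k) (by omega : n ≠ k + 1)]
      exact prod_range_swap hn (fun i => (q * s n - q⁻¹ * s i) / (q - q⁻¹))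
    rw [h1]; ring

/-- The base component as a polynomial. -/
noncomputable def PhiP (L : ℕ) : MvPolynomial (Fin L) ℂ :=
  ∏ j : Fin L, ∏ i : Fin L,
    if i < j then C ((q - q⁻¹)⁻¹) * (C q * X j - C q⁻¹ * X i) else 1

theorem eval_PhiP (L : ℕ) (s : ℕ → ℂ) :
    eval (fun k : Fin L => s k) (PhiP L) = gp L s := by
  unfold PhiP gp
  rw [map_prod, Finset.prod_range (n := L)]
  refine Finset.prod_congr rfl fun j _ => ?_
  rw [map_prod, Finset.prod_range (n := (j : ℕ))]
  have h1 : ∀ i : Fin L, eval (fun k : Fin L => s k)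
      (if i < j then C ((q - q⁻¹)⁻¹) * (C q * X j - C q⁻¹ * X i) else (1 : MvPolynomial (Fin L) ℂ))
      = if i < j then (q * s j - q⁻¹ * s i) / (q - q⁻¹) else 1 := by
    intro i
    split_ifs
    · simp only [map_mul, map_sub, eval_C, eval_X]; ring
    · simp
  rw [Finset.prod_congr rfl fun i _ => h1 i, ← Finset.prod_filter]
  symm
  refine Finset.prod_bij (fun (i : Fin (j : ℕ)) _ => (⟨i, i.isLt.trans j.isLt⟩ : Fin L)) ?_ ?_ ?_ ?_
  · intro i _
    rw [Finset.mem_filter]
    exact ⟨Finset.mem_univ _, i.isLt⟩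
  · intro a _ b _ hab
    exact Fin.ext (by simpa using hab)
  · intro b hb
    rw [Finset.mem_filter] at hb
    exact ⟨⟨b, hb.2⟩, Finset.mem_univ _, rfl⟩
  · intro i _; rfl

theorem card_pairs {L : ℕ} (S : Finset (Fin L)) :
    ∑ j : Fin L, ∑ i : Fin L, (if i < j ∧ i ∈ S ∧ j ∈ S then 1 else 0) = S.card.choose 2 := by
  induction S using Finset.induction_on_max with
  | empty => simp
  | insert a S ha ih =>
    have hnot : a ∉ S := fun h => lt_irrefl _ (ha a h)
    rw [Finset.card_insert_of_notMem hnot, Nat.choose_succ_succ' S.card 1, Nat.choose_one_right,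
      ← ih]
    have h1 : ∀ j i : Fin L, (if i < j ∧ i ∈ insert a S ∧ j ∈ insert a S then 1 else 0)
        = (if j = a ∧ i ∈ S then 1 else 0) + (if i < j ∧ i ∈ S ∧ j ∈ S then 1 else 0) := by
      intro j i
      by_cases hj : j = a
      · subst hj
        by_cases hi : i ∈ S
        · have h2 := ha i hi
          simp [hi, h2, hnot]
        · by_cases hij : i = j
          · subst hij; simp [hnot]
          · simp [hi, hij, hnot]
      · by_cases hi : i = a
        · subst hi
          have h3 : ¬ (i < j ∧ j ∈ S) := fun h => lt_asymm h.1 (ha j h.2)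
          simp only [Finset.mem_insert, hj, hnot, false_or, false_and, and_false, if_false,
            true_or, true_and]
          rw [if_neg h3]
        · simp [hi, hj]
    simp_rw [h1, Finset.sum_add_distrib]
    congr 1
    rw [Finset.sum_eq_single a]
    · simp
    · intro j _ hj; simp [hj]
    · intro h; exact absurd (Finset.mem_univ _) h

/-- Lower and upper joint degree. -/
def loF (k : ℕ) : ℕ := k.choose 2

/-- Upper joint degree in `k` variables. -/
def upF (L k : ℕ) : ℕ := L.choose 2 - (L - k).choose 2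

theorem PhiP_bd (L : ℕ) : JointBd loF (upF L) (PhiP L) := by
  intro S
  unfold PhiP
  have h : Bd S (∑ j : Fin L, ∑ i : Fin L, (if i < j ∧ i ∈ S ∧ j ∈ S then 1 else 0))
      (∑ j : Fin L, ∑ i : Fin L, (if i < j ∧ (i ∈ S ∨ j ∈ S) then 1 else 0))
      (∏ j : Fin L, ∏ i : Fin L,
        if i < j then C ((q - q⁻¹)⁻¹) * (C q * X j - C q⁻¹ * X i)
        else (1 : MvPolynomial (Fin L) ℂ)) := by
    refine Bd.prod _ _ _ _ fun j _ => Bd.prod _ _ _ _ fun i _ => ?_
    by_cases hij : i < j
    · simp only [hij, if_true, true_and]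
      exact Bd.C_mul (Bd.lin S i j q q⁻¹) _
    · simp only [hij, if_false, false_and]
      exact Bd.one S
  refine h.mono ?_ ?_
  · rw [card_pairs]; exact le_refl _
  · have h1 : (∑ j : Fin L, ∑ i : Fin L, (if i < j ∧ (i ∈ S ∨ j ∈ S) then 1 else 0))
        + (∑ j : Fin L, ∑ i : Fin L, (if i < j ∧ i ∈ Sᶜ ∧ j ∈ Sᶜ then 1 else 0))
        = ∑ j : Fin L, ∑ i : Fin L,
          (if i < j ∧ i ∈ (Finset.univ : Finset (Fin L)) ∧ j ∈ (Finset.univ : Finset (Fin L))
            then 1 else 0) := by
      rw [← Finset.sum_add_distrib]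
      refine Finset.sum_congr rfl fun j _ => ?_
      rw [← Finset.sum_add_distrib]
      refine Finset.sum_congr rfl fun i _ => ?_
      by_cases hij : i < j <;> by_cases hi : i ∈ S <;> by_cases hj : j ∈ S <;>
        simp [hij, hi, hj]
    rw [card_pairs, card_pairs, Finset.card_compl, Finset.card_univ, Fintype.card_fin] at h1
    unfold upF
    omega

end Pool.Agent.H12.QKZ
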