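import Pool.Agent.H12.QKZ.Dens
import Pool.Agent.H12.QKZ.PhiBase

/-!
# Normalisation by the base component
-/

namespace Pool.Agent.H12.QKZ

open H56.EX Matrix

variable {L : ℕ}

theorem qc_q : qc = q := by
  rw [qc_cos_sin]
  apply Complex.ext
  · simp [q]
  · simp [q]

/-- Admissible angles. -/
def Oset (L : ℕ) (θ : ℤ → ℝ) : Prop := ∃ m, Adm L θ m

theorem Oset.per {θ : ℤ → ℝ} (h : Oset L θ) (x : ℤ) : θ (x + L) = θ x := by
  obtain ⟨m, hm⟩ := h; exact hm.per x

theorem Oset.sw {θ : ℤ → ℝ} (hL : 2 ≤ L) (h : Oset L θ) (i : ℤ) :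
    Oset L (Pool.Agent.H12.QKZ.sw L i θ) := by
  obtain ⟨m, hm⟩ := h; exact ⟨_, hm.sw hL i⟩

theorem Oset.rot {θ : ℤ → ℝ} (h : Oset L θ) : Oset L (fun x => θ (x - 1)) := by
  obtain ⟨m, hm⟩ := h; exact ⟨_, hm.rot⟩

theorem Oset.rot' {θ : ℤ → ℝ} (h : Oset L θ) : Oset L (fun x => θ (x + 1)) := by
  obtain ⟨m, hm⟩ := h
  refine ⟨m - 1, ?_⟩
  exact {
    per := fun x => by
      show θ (x + L + 1) = θ (x + 1)
      rw [show x + (L : ℤ) + 1 = x + 1 + L by ring, hm.per]
    pos := fun x => hm.pos _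
    lt := fun x => hm.lt _
    inj := fun x y hxy => hm.inj _ _ fun hc => hxy (by
      have := Cg.sub 1 hc
      simpa using this)
    max := fun x hx => by
      show θ (x + 1) < θ (m - 1 + 1)
      rw [sub_add_cancel]
      apply hm.max
      intro hc
      apply hx
      have := Cg.sub 1 hc
      simpa using this }

theorem Oset.den {θ : ℤ → ℝ} (h : Oset L θ) (x y : ℤ) :
    q * zc (θ x) - q⁻¹ * zc (θ y) ≠ 0 := by
  obtain ⟨m, hm⟩ := h
  have h1 := hm.abs_lt y x
  rw [abs_lt] at h1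
  rw [q_inv, ← qc_q]
  exact den_ne_zero h1.1 (by linarith [h1.2, Real.pi_pos])

theorem Oset.zne {θ : ℤ → ℝ} (hL : 2 ≤ L) (h : Oset L θ) (i : ℤ) :
    zc (θ i) ≠ zc (θ (i + 1)) := by
  obtain ⟨m, hm⟩ := h
  intro hz
  exact hm.inj i (i + 1) (not_Cg_succ hL i)
    (zc_injOn (hm.pos _) (hm.lt _) (hm.pos _) (hm.lt _) hz)

theorem psiC_exch (P₀ : Pat L) {θ : ℤ → ℝ} (h : Oset L θ) (i : ℤ) (P : Pat L) :
    (q * zc (θ (i + 1)) - q⁻¹ * zc (θ i)) * (psiR L (sw L i θ) P : ℂ)
      = (q * zc (θ i) - q⁻¹ * zc (θ (i + 1))) * (psiR L θ P : ℂ)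
        + (zc (θ i) - zc (θ (i + 1))) * eop i (fun P' => (psiR L θ P' : ℂ)) P := by
  have hden := h.den (i + 1) i
  obtain ⟨m, hm⟩ := h
  have h1 := congrFun (psiR_exch P₀ hm i) P
  have h2 : (EM i *ᵥ psiR L θ) P = ∑ P', if E i P' = P then psiR L θ P' else 0 := by
    unfold EM; rw [mapMat_mulVec]
  unfold RR Rm at h1
  simp only [Matrix.add_mulVec, Matrix.smul_mulVec, Matrix.one_mulVec, Pi.add_apply,
    Pi.smul_apply, smul_eq_mul] at h1
  rw [h2] at h1
  have h3 : ((∑ P', if E i P' = P then psiR L θ P' else 0 : ℝ) : ℂ)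
      = eop i (fun P' => (psiR L θ P' : ℂ)) P := by
    unfold eop
    push_cast
    refine Finset.sum_congr rfl fun P' _ => ?_
    split_ifs <;> simp
  have hb : ((br (θ i - θ (i + 1)) : ℝ) : ℂ)
      = (zc (θ i) - zc (θ (i + 1))) / (q * zc (θ (i + 1)) - q⁻¹ * zc (θ i)) := by
    rw [← bw_zc, bw, qc_q, q_inv]
  have hbd : ((br (θ i - θ (i + 1)) : ℝ) : ℂ) * (q * zc (θ (i + 1)) - q⁻¹ * zc (θ i))
      = zc (θ i) - zc (θ (i + 1)) := by
    rw [hb, div_mul_cancel₀ _ hden]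
  have h4 : ((psiR L (sw L i θ) P : ℝ) : ℂ) = (1 - ((br (θ i - θ (i + 1)) : ℝ) : ℂ)) * psiR L θ P
      + ((br (θ i - θ (i + 1)) : ℝ) : ℂ) * eop i (fun P' => (psiR L θ P' : ℂ)) P := by
    rw [← h3, ← h1]; push_cast; ring
  rw [h4]
  have hq := q_sq
  have hqi := q_inv
  linear_combination (eop i (fun P' => (psiR L θ P' : ℂ)) P - psiR L θ P) * hbd
    + ((zc (θ (i + 1)) - zc (θ i)) * psiR L θ P) * hq
    + ((zc (θ (i + 1)) - zc (θ i)) * psiR L θ P) * hqi

/-! ### Base patterns -/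

theorem base_window (hE : Even L) (hL : 2 ≤ L) (i : ℤ) :
    ∃ x : ℤ, Cg L i x ∧ -(L : ℤ) ≤ 2 * x ∧ 2 * x < L := by
  obtain ⟨n, hn⟩ := hE
  have hpos : (0 : ℤ) < L := by omega
  refine ⟨(i + n) % L - n, ?_, ?_, ?_⟩
  · unfold Cg
    rw [show i - ((i + n) % (L : ℤ) - n) = (i + n) - (i + n) % L by ring]
    exact Int.dvd_self_sub_emod
  · have := Int.emod_nonneg (i + n) hpos.ne'
    omega
  · have := Int.emod_lt_of_pos (i + n) hpos
    omega

theorem base_arc {B : Pat L} (hB : IsBase B) {i : ℤ} (h : B.m i = i + 1) : Cg L (i + 1) 0 := by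
  obtain ⟨x, hx, h1, h2⟩ := base_window (even_of_pat B) B.two_le i
  have h3 : B.m i = B.m x + (i - x) := B.per_dvd hx
  rw [hB x h1 h2, h] at h3
  have : x = -1 := by linarith
  subst this
  unfold Cg at hx ⊢
  rwa [show i - -1 = i + 1 - 0 by ring] at hx

theorem base_unique {B B' : Pat L} (hB : IsBase B) (hB' : IsBase B') : B = B' := by
  apply Pat.ext
  funext i
  obtain ⟨x, hx, h1, h2⟩ := base_window (even_of_pat B) B.two_le i
  exact Pat.eq_of_dvd hx (by rw [hB x h1 h2, hB' x h1 h2])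

theorem eop_base {B : Pat L} (hB : IsBase B) {i : ℤ} (hi : ¬ Cg L (i + 1) 0) (v : Pat L → ℂ) :
    eop i v B = 0 := by
  unfold eop
  apply Finset.sum_eq_zero
  intro P' _
  rw [if_neg]
  intro h
  apply hi
  apply base_arc hB
  rw [← h, E.self]

/-! ### Closure under rotations -/

theorem emod_of_cg {x : ℤ} {k : ℕ} (hk : k < L) (h : Cg L x k) : x % (L : ℤ) = k := by
  have h1 := Int.emod_eq_emod_iff_emod_sub_eq_zero.2 (Int.emod_eq_zero_of_dvd h)
  rw [h1, Int.emod_eq_of_lt (by omega) (by omega)]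

theorem cg_emod (x : ℤ) : Cg L x (x % (L : ℤ)) := Int.dvd_self_sub_emod

/-- Intermediate steps of the left rotation. -/
def Tk (L : ℕ) (θ : ℤ → ℝ) (k : ℕ) : ℤ → ℝ := fun x =>
  if x % (L : ℤ) < k then θ (x + 1) else if x % (L : ℤ) = k then θ (x - k) else θ x

theorem Tk_succ (hL : 2 ≤ L) (θ : ℤ → ℝ) (k : ℕ) (hk : k + 1 < L) :
    Tk L θ (k + 1) = sw L k (Tk L θ k) := by
  funext x
  by_cases h1 : Cg L x k
  · rw [sw_of_i h1]
    have e1 := emod_of_cg (by omega) h1
    have e2 : (x + 1) % (L : ℤ) = (k + 1 : ℕ) :=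
      emod_of_cg hk (by push_cast; exact Cg.add 1 h1)
    unfold Tk
    rw [if_pos (by rw [e1]; push_cast; omega), if_neg (by rw [e2]; push_cast; omega),
      if_neg (by rw [e2]; push_cast; omega)]
  by_cases h2 : Cg L x (k + 1)
  · rw [sw_of_succ hL h2]
    have e1 : x % (L : ℤ) = (k + 1 : ℕ) := emod_of_cg hk (by push_cast; exact h2)
    have e2 : (x - 1) % (L : ℤ) = k := emod_of_cg (by omega) (by
      have := Cg.sub 1 h2
      rwa [add_sub_cancel_right] at this)
    unfold Tk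
    rw [if_neg (by rw [e1]; omega), if_pos e1, if_neg (by rw [e2]; omega), if_pos e2]
    congr 1; push_cast; ring
  · rw [sw_other h1 h2]
    have e1 : x % (L : ℤ) ≠ k := by
      intro h; apply h1; rw [← h]; exact cg_emod x
    have e2 : x % (L : ℤ) ≠ (k + 1 : ℕ) := by
      intro h; apply h2
      have := cg_emod (L := L) x
      rw [h] at this; push_cast at this; exact this
    unfold Tk
    by_cases h3 : x % (L : ℤ) < k
    · rw [if_pos (by push_cast; omega), if_pos h3]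
    · rw [if_neg (by push_cast at e2 ⊢; omega), if_neg e2, if_neg h3, if_neg e1]

theorem closure_left (hL : 2 ≤ L) (C : (ℤ → ℝ) → Prop)
    (hC : ∀ θ : ℤ → ℝ, Oset L θ → ∀ i : ℤ, ¬ Cg L (i + 1) 0 → C θ → C (sw L i θ)) {θ : ℤ → ℝ}
    (hθ : Oset L θ) (h : C θ) : C (fun x => θ (x + 1)) := by
  have hpos : (0 : ℤ) < L := by omega
  have key : ∀ k : ℕ, k < L → Oset L (Tk L θ k) ∧ C (Tk L θ k) := by
    intro k
    induction k with
    | zero =>
      intro _
      have : Tk L θ 0 = θ := by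
        funext x
        unfold Tk
        have := Int.emod_nonneg x hpos.ne'
        rw [if_neg (by push_cast; omega)]
        split_ifs
        · simp
        · rfl
      rw [this]; exact ⟨hθ, h⟩
    | succ k ih =>
      intro hk
      obtain ⟨h1, h2⟩ := ih (by omega)
      rw [Tk_succ hL θ k hk]
      refine ⟨h1.sw hL _, hC _ h1 _ ?_ h2⟩
      apply not_cg_of_lt <;> omega
  have h1 := (key (L - 1) (by omega)).2
  have h2 : Tk L θ (L - 1) = fun x => θ (x + 1) := by
    funext x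
    unfold Tk
    have e1 := Int.emod_lt_of_pos x hpos
    split_ifs with g1 g2
    · rfl
    · have e2 : ((L - 1 : ℕ) : ℤ) = L - 1 := by push_cast [Nat.cast_sub (show 1 ≤ L by omega)]; ring
      rw [e2, ← hθ.per (x - (L - 1))]
      congr 1; ring
    · exfalso
      have e2 : ((L - 1 : ℕ) : ℤ) = L - 1 := by push_cast [Nat.cast_sub (show 1 ≤ L by omega)]; ring
      rw [e2] at g1 g2
      omega
  rwa [h2] at h1

theorem Oset.shift {θ : ℤ → ℝ} (hθ : Oset L θ) (k : ℕ) : Oset L (fun x => θ (x + k)) := by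
  induction k with
  | zero => simpa using hθ
  | succ k ih =>
    have := ih.rot'
    have e : (fun x : ℤ => θ (x + 1 + k)) = fun x : ℤ => θ (x + ((k + 1 : ℕ) : ℤ)) := by
      funext x; congr 1; push_cast; ring
    rw [← e]; exact this

theorem closure_shift (hL : 2 ≤ L) (C : (ℤ → ℝ) → Prop)
    (hC : ∀ θ : ℤ → ℝ, Oset L θ → ∀ i : ℤ, ¬ Cg L (i + 1) 0 → C θ → C (sw L i θ)) {θ : ℤ → ℝ}
    (hθ : Oset L θ) (h : C θ) (k : ℕ) : C (fun x => θ (x + k)) := by
  induction k with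
  | zero => simpa using h
  | succ k ih =>
    have h2 := closure_left hL C hC (hθ.shift k) ih
    have e : (fun x : ℤ => θ (x + 1 + k)) = fun x : ℤ => θ (x + ((k + 1 : ℕ) : ℤ)) := by
      funext x; congr 1; push_cast; ring
    rw [← e]; exact h2

theorem closure_right (hL : 2 ≤ L) (C : (ℤ → ℝ) → Prop)
    (hC : ∀ θ : ℤ → ℝ, Oset L θ → ∀ i : ℤ, ¬ Cg L (i + 1) 0 → C θ → C (sw L i θ)) {θ : ℤ → ℝ}
    (hθ : Oset L θ) (h : C θ) : C (fun x => θ (x - 1)) := by
  have h1 := closure_shift hL C hC hθ h (L - 1)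
  have e : (fun x : ℤ => θ (x + ((L - 1 : ℕ) : ℤ))) = fun x : ℤ => θ (x - 1) := by
    funext x
    rw [← hθ.per (x - 1)]
    congr 1
    push_cast [Nat.cast_sub (show 1 ≤ L by omega)]; ring
  rwa [e] at h1

theorem closure_sw (hL : 2 ≤ L) (C : (ℤ → ℝ) → Prop)
    (hC : ∀ θ : ℤ → ℝ, Oset L θ → ∀ i : ℤ, ¬ Cg L (i + 1) 0 → C θ → C (sw L i θ)) {θ : ℤ → ℝ}
    (hθ : Oset L θ) (h : C θ) (i : ℤ) : C (sw L i θ) := by
  by_cases hi : Cg L (i + 1) 0
  · have h1 := closure_right hL C hC hθ h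
    have hn : ¬ Cg L (i + 1 + 1) 0 := by
      intro h'
      have := Cg.trans' h' (Cg.symm' hi)
      exact not_Cg_succ hL (i + 1) (Cg.symm' this)
    have h2 := hC _ hθ.rot (i + 1) hn h1
    have h3 := closure_left hL C hC (hθ.rot.sw hL (i + 1)) h2
    have e : (fun x : ℤ => sw L (i + 1) (fun x => θ (x - 1)) (x + 1)) = sw L i θ := by
      funext x
      unfold sw
      have e1 : Cg L (x + 1) (i + 1) ↔ Cg L x i := by
        unfold Cg; rw [show x + 1 - (i + 1) = x - i by ring]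
      have e2 : Cg L (x + 1) (i + 1 + 1) ↔ Cg L x (i + 1) := by
        unfold Cg; rw [show x + 1 - (i + 1 + 1) = x - (i + 1) by ring]
      simp only [e1, e2, add_sub_cancel_right]
    rwa [e] at h3
  · exact hC θ hθ i hi h

/-! ### The base component does not vanish -/

theorem psiR_base_ne {B : Pat L} (hB : IsBase B) {θ : ℤ → ℝ} (hθ : Oset L θ) :
    psiR L θ B ≠ 0 := by
  intro h0
  have hL := B.two_le
  set C : (ℤ → ℝ) → Prop := fun θ => psiR L θ B = 0 with hCdef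
  have hC : ∀ θ : ℤ → ℝ, Oset L θ → ∀ i : ℤ, ¬ Cg L (i + 1) 0 → C θ → C (sw L i θ) := by
    intro θ hθ i hi hc
    have h1 := psiC_exch B hθ i B
    rw [eop_base hB hi, show psiR L θ B = 0 from hc] at h1
    simp only [Complex.ofReal_zero, mul_zero, add_zero] at h1
    have h2 := (mul_eq_zero.1 h1).resolve_left (hθ.den (i + 1) i)
    exact_mod_cast h2
  have htri := triangular L (ℤ → ℝ) {θ | Oset L θ ∧ C θ} (fun i θ => sw L i θ)
    (fun θ x => θ (x - 1)) (fun θ x => zc (θ x)) (fun P θ => (psiR L θ P : ℂ))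
    (fun i θ h => ⟨h.1.sw hL i, closure_sw hL C hC h.1 h.2 i⟩)
    (fun θ h => ⟨fun x => θ (x + 1), ⟨h.1.rot', closure_left hL C hC h.1 h.2⟩, by
      funext x; simp⟩)
    (fun θ h i => h.1.zne hL i)
    (fun P θ h i => psiC_exch B h.1 i P)
    (fun P θ h => by
      obtain ⟨m, hm⟩ := h.1
      have h1 := congrFun (psiR_rot B hm) (rot P)
      rw [← h1]
      unfold RotM
      rw [mapMat_mulVec, Finset.sum_eq_single P]
      · rw [if_pos rfl]
      · intro P' _ hne
        rw [if_neg]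
        intro h'
        apply hne
        apply Pat.ext
        funext x
        have := congrArg (fun R : Pat L => R.m (x + 1)) h'
        simp only [rot_m, add_sub_cancel_right, add_left_inj] at this
        exact this
      · intro h; exact absurd (Finset.mem_univ _) h)
    (fun B' hB' θ h => by
      rw [base_unique hB' hB]
      have := h.2
      simp only [hCdef] at this
      rw [this]; simp)
  obtain ⟨m, hm⟩ := hθ
  have hsum := (psiR_spec B hm).2
  have : ∀ P, psiR L θ P = 0 := by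
    intro P
    have := htri P θ ⟨⟨m, hm⟩, h0⟩
    exact_mod_cast this
  simp [this] at hsum

end Pool.Agent.H12.QKZ
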