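import Pool.Agent.H12.QKZ.Exist
import Pool.Agent.H14.EX.Arc

/-!
# The polynomial qKZ solution
-/

namespace Pool.Agent.H12.QKZ

open H56.EX Matrix MvPolynomial

variable {L : ℕ}

theorem exists_base (P : Pat L) : ∃ B : Pat L, IsBase B := by
  revert P
  apply pat_induction (motive := fun _ => ∃ B : Pat L, IsBase B)
  · intro _ B hB; exact ⟨B, hB⟩
  · intro _ _ _ h _; exact h

open Classical in
/-- The components as polynomials. -/
noncomputable def PsiPoly (P : Pat L) : MvPolynomial (Fin L) ℂ :=
  if h : ∃ B : Pat L, IsBase B then (exists_poly h.choose_spec P).choose else 0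

/-- The qKZ solution. -/
noncomputable def Psi (L : ℕ) (P : Pat L) (ζ : ℤ → ℂ) : ℂ :=
  eval (fun k : Fin L => ζ ((k : ℕ) : ℤ)) (PsiPoly P)

theorem PsiPoly_bd (P : Pat L) : JointBd loF (upF L) (PsiPoly P) := by
  unfold PsiPoly
  rw [dif_pos (exists_base P)]
  exact (exists_poly (exists_base P).choose_spec P).choose_spec.1

theorem PsiPoly_num {B : Pat L} (hB : IsBase B) (P : Pat L) {θ : ℤ → ℝ} (hθ : Oset L θ) :
    eval (fun k : Fin L => zc (θ (k : ℕ))) (PsiPoly P) = PsiN B P θ := by
  have h := (exists_poly (exists_base P).choose_spec P).choose_spec.2 θ hθ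
  unfold PsiPoly
  rw [dif_pos (exists_base P), ← h, base_unique (exists_base P).choose_spec hB]

theorem zc_swap {θ : ℤ → ℝ} (hθ : Oset L θ) (hL : 0 < L) (i : ℤ) :
    (fun k : Fin L => zc (θ (k : ℕ))) ∘ (Equiv.swap (idx hL i) (idx hL (i + 1)))
      = fun k : Fin L => zc (sw L i θ (k : ℕ)) := by
  funext k
  simp only [Function.comp_apply]
  rw [eval_swap (f := fun x => zc (θ x)) (fun x => by rw [hθ.per]) hL]
  unfold sw
  split_ifs <;> rfl

/-- Exchange relation for the polynomials. -/
theorem PsiPoly_exch (hL : 0 < L) (P : Pat L) (i : ℤ) :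
    (C q * X (idx hL (i + 1)) - C q⁻¹ * X (idx hL i)) *
        rename (Equiv.swap (idx hL i) (idx hL (i + 1))) (PsiPoly P)
      = (C q * X (idx hL i) - C q⁻¹ * X (idx hL (i + 1))) * PsiPoly P
        + (X (idx hL i) - X (idx hL (i + 1))) *
          ∑ P' : Pat L, (if E i P' = P then PsiPoly P' else 0) := by
  obtain ⟨B, hB⟩ := exists_base P
  apply dens_adm hL
  intro θ hθ
  have hθ' : Oset L θ := hθ
  have e1 : zc (θ ((idx hL i : Fin L) : ℕ)) = zc (θ i) := by
    rw [per_dvd_fun hθ'.per (idx_cg hL i)]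
  have e2 : zc (θ ((idx hL (i + 1) : Fin L) : ℕ)) = zc (θ (i + 1)) := by
    rw [per_dvd_fun hθ'.per (idx_cg hL (i + 1))]
  simp only [map_mul, map_sub, map_add, map_sum, eval_X, eval_C, eval_rename]
  rw [zc_swap hθ' hL, PsiPoly_num hB P (hθ'.sw P.two_le i), PsiPoly_num hB P hθ', e1, e2,
    PsiN_exch hB hθ' i P]
  congr 2
  unfold eop
  refine Finset.sum_congr rfl fun P' _ => ?_
  split_ifs
  · rw [PsiPoly_num hB P' hθ']
  · simp

theorem PsiPoly_rot (P : Pat L) :
    rename (cycE L (L - 1)) (PsiPoly (rot P)) = PsiPoly P := by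
  obtain ⟨B, hB⟩ := exists_base P
  have hL2 := P.two_le
  apply dens_adm (by omega)
  intro θ hθ
  have hθ' : Oset L θ := hθ
  rw [eval_rename, PsiPoly_num hB P hθ']
  have e : (fun k : Fin L => zc (θ (k : ℕ))) ∘ (cycE L (L - 1))
      = fun k : Fin L => zc ((fun x => θ (x - 1)) (k : ℕ)) := by
    funext k
    simp only [Function.comp_apply]
    rw [eval_cyc (f := fun x => zc (θ x)) (fun x => by rw [hθ'.per]) (L - 1) k]
    congr 1
    rw [← hθ'.per ((k : ℕ) - 1)]
    congr 1
    push_cast [Nat.cast_sub (show 1 ≤ L by omega)]; ring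
  have h1 := PsiPoly_num hB (rot P) hθ'.rot
  rw [PsiN_rot hB hθ' P] at h1
  rw [e]
  exact h1

theorem PsiPoly_base {B : Pat L} (hB : IsBase B) : PsiPoly B = PhiP L := by
  have hL2 := B.two_le
  apply dens_adm (by omega)
  intro θ hθ
  have hθ' : Oset L θ := hθ
  rw [PsiPoly_num hB B hθ', PsiN_base hB hθ', ← eval_PhiP]

/-- A polynomial in one variable obtained by specialising all others. -/
theorem natDegree_spec {n : ℕ} (a : Fin n) (c : Fin n → ℂ) (p : MvPolynomial (Fin n) ℂ) (d : ℕ)
    (h : ∀ e, coeff e p ≠ 0 → e a ≤ d) :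
    ∃ P : Polynomial ℂ, P.natDegree ≤ d ∧
      ∀ t, eval (fun k => if k = a then t else c k) p = P.eval t := by
  refine ⟨∑ e ∈ p.support, Polynomial.C (coeff e p) *
    ∏ k, (if k = a then Polynomial.X else Polynomial.C (c k)) ^ (e k), ?_, ?_⟩
  · apply Polynomial.natDegree_sum_le_of_forall_le
    intro e he
    rw [mem_support_iff] at he
    refine (Polynomial.natDegree_C_mul_le _ _).trans ?_
    refine (Polynomial.natDegree_prod_le _ _).trans ?_
    refine le_trans (Finset.sum_le_sum (g := fun k => if k = a then e k else 0) fun k _ => ?_) ?_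
    · split_ifs with hk
      · refine (Polynomial.natDegree_pow_le).trans ?_
        simp
      · refine (Polynomial.natDegree_pow_le).trans ?_
        simp
    · simp only [Finset.sum_ite_eq', Finset.mem_univ, if_true]
      exact h e he
  · intro t
    rw [eval_eq, Polynomial.eval_finsetSum]
    refine Finset.sum_congr rfl fun e _ => ?_
    rw [Polynomial.eval_mul, Polynomial.eval_C, Polynomial.eval_prod]
    congr 1
    have h1 : ∀ k, Polynomial.eval t ((if k = a then Polynomial.X else Polynomial.C (c k)) ^ (e k))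
        = (if k = a then t else c k) ^ (e k) := by
      intro k
      rw [Polynomial.eval_pow]
      split_ifs <;> simp
    rw [Finset.prod_congr rfl fun k _ => h1 k]
    rw [Finset.prod_subset (Finset.subset_univ e.support)]
    intro k _ hk
    rw [Finsupp.mem_support_iff, not_not] at hk
    rw [hk, pow_zero]

theorem upF_one {L : ℕ} (hL : 1 ≤ L) : upF L 1 = L - 1 := by
  obtain ⟨n, rfl⟩ : ∃ n, L = n + 1 := ⟨L - 1, by omega⟩
  unfold upF
  rw [Nat.add_sub_cancel, Nat.choose_succ_succ' n 1, Nat.choose_one_right,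
    show (1 + 1 : ℕ) = 2 from rfl]
  omega

theorem psiPre : PsiPre Psi where
  congr := fun L P ζ ζ' h => by
    unfold Psi
    congr 1
    have : (fun k : Fin L => ζ ((k : ℕ) : ℤ)) = fun k : Fin L => ζ' ((k : ℕ) : ℤ) := by
      funext k
      exact h _ (by omega) (by have := k.isLt; omega)
    rw [this]
  mv := fun L P => ⟨PsiPoly P, fun ζ => rfl⟩
  exch := fun L P ζ hper i => by
    have hL2 := P.two_le
    have hL : 0 < L := by omega
    have h1 := congrArg (eval (fun k : Fin L => ζ ((k : ℕ) : ℤ))) (PsiPoly_exch hL P i)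
    simp only [map_mul, map_sub, map_add, map_sum, eval_X, eval_C, eval_rename] at h1
    have e1 : ζ ((idx hL i : Fin L) : ℕ) = ζ i := (per_dvd_fun hper (idx_cg hL i)).symm
    have e2 : ζ ((idx hL (i + 1) : Fin L) : ℕ) = ζ (i + 1) :=
      (per_dvd_fun hper (idx_cg hL (i + 1))).symm
    have e3 : (fun k : Fin L => ζ ((k : ℕ) : ℤ)) ∘ (Equiv.swap (idx hL i) (idx hL (i + 1)))
        = fun k : Fin L => swp L i ζ ((k : ℕ) : ℤ) := by
      funext k
      simp only [Function.comp_apply]
      rw [eval_swap hper hL]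
      unfold swp
      split_ifs <;> rfl
    rw [e1, e2, e3] at h1
    unfold Psi
    rw [h1]
    congr 2
    unfold eop
    refine Finset.sum_congr rfl fun P' _ => ?_
    split_ifs <;> simp
  rot := fun L P ζ hper => by
    have hL2 := P.two_le
    have h1 := congrArg (eval (fun k : Fin L => ζ ((k : ℕ) : ℤ))) (PsiPoly_rot P)
    rw [eval_rename] at h1
    have e : (fun k : Fin L => ζ ((k : ℕ) : ℤ)) ∘ (cycE L (L - 1))
        = fun k : Fin L => (fun x => ζ (x - 1)) ((k : ℕ) : ℤ) := by
      funext k
      simp only [Function.comp_apply]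
      rw [eval_cyc hper (L - 1) k, ← hper ((k : ℕ) - 1)]
      congr 1
      push_cast [Nat.cast_sub (show 1 ≤ L by omega)]; ring
    rw [e] at h1
    exact h1
  base := fun L P ζ hP => by
    unfold Psi
    rw [PsiPoly_base hP]
    exact eval_PhiP L (fun k => ζ k)

/-- The polynomial qKZ solution has all properties used by the leg formulas. -/
theorem psiProps : PsiProps Psi where
  congr := psiPre.congr
  mv := psiPre.mv
  poly := fun L P ζ _ i => by
    have hL2 := P.two_le
    have hL : 0 < L := by omega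
    have hb := PsiPoly_bd P
    obtain ⟨p, hp1, hp2⟩ := natDegree_spec (idx hL i) (fun k => ζ ((k : ℕ) : ℤ)) (PsiPoly P)
      (L - 1) (fun e he => by
        have := (hb {idx hL i} e he).2
        rw [Finset.sum_singleton, Finset.card_singleton, upF_one (by omega)] at this
        exact this)
    refine ⟨p, hp1, fun t => ?_⟩
    rw [← hp2]
    unfold Psi
    have : (fun k : Fin L => upd L ζ i t ((k : ℕ) : ℤ))
        = fun k : Fin L => if k = idx hL i then t else ζ ((k : ℕ) : ℤ) := by
      funext k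
      unfold upd
      by_cases h : Cg L ((k : ℕ) : ℤ) i
      · rw [if_pos h, if_pos ((idx_iff hL i k).2 h)]
      · rw [if_neg h, if_neg (fun h' => h ((idx_iff hL i k).1 h'))]
    rw [this]
  exch := psiPre.exch
  rot := psiPre.rot
  arc_zero := Pool.Agent.H14.EX.arc_zero_of psiPre
  arc := Pool.Agent.H14.EX.arc_of triangular psiPre
  base := psiPre.base

end Pool.Agent.H12.QKZ
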