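import Pool.Agent.H12.QKZ.Comb

/-!
# Triangularity
-/

namespace Pool.Agent.H12.QKZ

open H56.EX

/-- Induction principle: to prove a property of all patterns it suffices to treat the rotations of
the base pattern and to descend through good positions. -/
theorem pat_induction {L : ℕ} {motive : Pat L → Prop}
    (hbase : ∀ (k : ℕ) (B : Pat L), IsBase B → motive (rot^[k] B))
    (hstep : ∀ (P : Pat L) (i : ℤ), Good P i → motive (E i P) →
      (∀ P' : Pat L, E i P' = E i P → P' ≠ P → motive P') → motive P) :
    ∀ P, motive P := by
  have key : ∀ (N : ℕ) (P : Pat L), ((L : ℤ) * L - area P).toNat = N → motive P := by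
    intro N
    induction N using Nat.strong_induction_on with
    | _ N ih =>
      intro P hP
      rcases good_or_base P with ⟨k, B, hB, rfl⟩ | ⟨i, hi⟩
      · exact hbase k B hB
      · have hdesc : ∀ P' : Pat L, area P < area P' → motive P' := by
          intro P' hlt
          have h1 := area_le P'
          exact ih _ (by omega) P' rfl
        refine hstep P i hi (hdesc _ (area_lt_of_good hi)) ?_
        intro P' hE hne
        rcases fibre_of_good hi hE with h | h
        · exact absurd h hne
        · exact hdesc P' h
  exact fun P => key _ P rfl

theorem triangular : Triangular := by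
  intro L Ω O s r z D hs hr hz exch hrot hbase
  have hz' : ∀ (P : Pat L), ∀ ω ∈ O, D P ω = 0 := by
    apply pat_induction
    · intro k B hB
      induction k with
      | zero => exact hbase B hB
      | succ k ih =>
        intro ω hω
        obtain ⟨ω', hω', rfl⟩ := hr ω hω
        rw [Function.iterate_succ', Function.comp_apply, hrot _ ω' hω']
        exact ih ω' hω'
    · intro P i hi hQ hother ω hω
      have h1 := exch (E i P) ω hω i
      rw [hQ _ (hs i ω hω), hQ ω hω, mul_zero, mul_zero, zero_add] at h1
      have h2 : eop i (fun P' => D P' ω) (E i P) = 0 := by
        rcases mul_eq_zero.1 h1.symm with h | h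
        · exact absurd (sub_eq_zero.1 h) (hz ω hω i)
        · exact h
      unfold eop at h2
      rw [Finset.sum_eq_single P] at h2
      · rwa [if_pos rfl] at h2
      · intro P' _ hne
        split_ifs with hE
        · exact hother P' hE hne ω hω
        · rfl
      · intro h; exact absurd (Finset.mem_univ _) h
  exact hz'

end Pool.Agent.H12.QKZ
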