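import Pool.Agent.H12.QKZ.Scatter
import Pool.Agent.H12.QKZ.Tri

/-!
# The normalised fixed vector for admissible angles
-/

namespace Pool.Agent.H12.QKZ

open H56.EX Matrix

set_option linter.unusedSectionVars false

variable {L : ℕ}

theorem even_of_pat (P : Pat L) : Even L := by
  have key : ∀ _ : Pat L, Even L := by
    apply pat_induction (motive := fun _ => Even L)
    · intro k B hB
      rcases Nat.even_or_odd' L with ⟨n, hn | hn⟩
      · exact ⟨n, by omega⟩
      · exfalso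
        have h1 := hB n (by omega) (by omega)
        apply B.not_dvd_self n
        rw [h1, hn]
        refine ⟨-1, ?_⟩
        push_cast; ring
    · intro _ _ _ h _; exact h
  exact key P

/-- The exchange of the classes of `i` and `i+1`. -/
def tau (L : ℕ) (i x : ℤ) : ℤ := if Cg L x i then x + 1 else if Cg L x (i + 1) then x - 1 else x

theorem tau_of_i {i x : ℤ} (h : Cg L x i) : tau L i x = x + 1 := by simp only [tau, if_pos h]

theorem tau_of_succ (hL : 2 ≤ L) {i x : ℤ} (h : Cg L x (i + 1)) : tau L i x = x - 1 := by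
  have h' : ¬ Cg L x i := fun h' => not_Cg_succ hL i (Cg.trans' (Cg.symm' h') h)
  simp only [tau, if_neg h', if_pos h]

theorem tau_other {i x : ℤ} (h : ¬ Cg L x i) (h' : ¬ Cg L x (i + 1)) : tau L i x = x := by
  simp only [tau, if_neg h, if_neg h']

theorem sw_eq_tau (i : ℤ) (θ : ℤ → ℝ) : sw L i θ = fun x => θ (tau L i x) := by
  funext x
  simp only [sw, tau]
  split_ifs <;> rfl

theorem tau_tau (hL : 2 ≤ L) (i x : ℤ) : tau L i (tau L i x) = x := by
  by_cases h1 : Cg L x i
  · rw [tau_of_i h1, tau_of_succ hL (Cg.add 1 h1)]; ring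
  by_cases h2 : Cg L x (i + 1)
  · have h3 : Cg L (x - 1) i := by
      have := Cg.sub 1 h2
      rwa [add_sub_cancel_right] at this
    rw [tau_of_succ hL h2, tau_of_i h3]; ring
  · rw [tau_other h1 h2, tau_other h1 h2]

theorem tau_cg (hL : 2 ≤ L) (i : ℤ) {x y : ℤ} (h : Cg L x y) : Cg L (tau L i x) (tau L i y) := by
  by_cases h1 : Cg L x i
  · rw [tau_of_i h1, tau_of_i (Cg.trans' (Cg.symm' h) h1)]; exact Cg.add 1 h
  by_cases h2 : Cg L x (i + 1)
  · rw [tau_of_succ hL h2, tau_of_succ hL (Cg.trans' (Cg.symm' h) h2)]; exact Cg.sub 1 h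
  · rw [tau_other h1 h2, tau_other (fun h' => h1 (Cg.trans' h h'))
      (fun h' => h2 (Cg.trans' h h'))]
    exact h

theorem tau_cg' (hL : 2 ≤ L) (i : ℤ) {x y : ℤ} (h : Cg L (tau L i x) (tau L i y)) : Cg L x y := by
  have := tau_cg hL i h
  rwa [tau_tau hL, tau_tau hL] at this

theorem tau_add (hL : 2 ≤ L) (i x : ℤ) : tau L i (x + L) = tau L i x + L := by
  have hc : Cg L (x + L) x := by unfold Cg; simp
  by_cases h1 : Cg L x i
  · rw [tau_of_i h1, tau_of_i (Cg.trans' hc h1)]; ring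
  by_cases h2 : Cg L x (i + 1)
  · rw [tau_of_succ hL h2, tau_of_succ hL (Cg.trans' hc h2)]; ring
  · rw [tau_other h1 h2, tau_other (fun h' => h1 (Cg.trans' (Cg.symm' hc) h'))
      (fun h' => h2 (Cg.trans' (Cg.symm' hc) h'))]

theorem sw_sw (hL : 2 ≤ L) (i : ℤ) (θ : ℤ → ℝ) : sw L i (sw L i θ) = θ := by
  rw [sw_eq_tau, sw_eq_tau]
  funext x
  simp only [tau_tau hL]

theorem Adm.sw {θ : ℤ → ℝ} {m : ℤ} (hL : 2 ≤ L) (h : Adm L θ m) (i : ℤ) :
    Adm L (Pool.Agent.H12.QKZ.sw L i θ) (tau L i m) := by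
  rw [sw_eq_tau]
  exact {
    per := fun x => by rw [tau_add hL, h.per]
    pos := fun x => h.pos _
    lt := fun x => h.lt _
    inj := fun x y hxy => h.inj _ _ fun hc => hxy (tau_cg' hL i hc)
    max := fun x hx => by
      rw [tau_tau hL]
      apply h.max
      intro hc
      apply hx
      apply tau_cg' hL i
      rw [tau_tau hL]; exact hc }

theorem Adm.rot {θ : ℤ → ℝ} {m : ℤ} (h : Adm L θ m) :
    Adm L (fun x => θ (x - 1)) (m + 1) where
  per := fun x => by rw [show x + (L : ℤ) - 1 = x - 1 + L by ring, h.per]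
  pos := fun x => h.pos _
  lt := fun x => h.lt _
  inj := fun x y hxy => h.inj _ _ fun hc => hxy (by
    have := Cg.add 1 hc
    simpa using this)
  max := fun x hx => by
    rw [add_sub_cancel_right]
    apply h.max
    intro hc
    apply hx
    have := Cg.add 1 hc
    simpa using this

theorem W_congr {θ : ℤ → ℝ} (hper : ∀ x, θ (x + L) = θ x) {m m' : ℤ} (h : Cg L m m') :
    ∀ k : ℕ, (W θ m k : Matrix (Pat L) (Pat L) ℝ) = W θ m' k := by
  intro k
  induction k with
  | zero => rfl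
  | succ k ih =>
    rw [W, W, ih, RR_congr (Cg.add k h), per_dvd_fun hper h,
      per_dvd_fun hper (show Cg L (m + 1 + k) (m' + 1 + k) from Cg.add k (Cg.add 1 h))]

theorem Sc_congr {θ : ℤ → ℝ} (hper : ∀ x, θ (x + L) = θ x) {m m' : ℤ} (h : Cg L m m') :
    (Sc θ m : Matrix (Pat L) (Pat L) ℝ) = Sc θ m' := by
  unfold Sc; rw [W_congr hper h]

/-- The path of patterns used for the positivity. -/
noncomputable def gk (m : ℤ) : ℕ → Pat L → Pat L
  | 0 => id
  | k + 1 => if Even k then E (m + k) ∘ gk m k else gk m k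

theorem RR_stoch {θ : ℤ → ℝ} {m : ℤ} (h : Adm L θ m) (i x : ℤ) (hx : ¬ Cg L x m) :
    ColStoch (RR i (θ m - θ x) : Matrix (Pat L) (Pat L) ℝ) := by
  have h1 : 0 < θ m - θ x := sub_pos.2 (h.max x hx)
  have h2 : θ m - θ x < 2 * Real.pi / 3 := lt_of_abs_lt (h.abs_lt m x)
  exact Rm_colStoch (br_pos h1 h2).le (br_lt_one h1 h2).le (mapMat_colStoch _)

theorem W_stoch {θ : ℤ → ℝ} {m : ℤ} (h : Adm L θ m) : ∀ k : ℕ, k + 1 ≤ L →
    ColStoch (W θ m k : Matrix (Pat L) (Pat L) ℝ) := by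
  intro k
  induction k with
  | zero => intro _; exact ColStoch.one
  | succ k ih =>
    intro hk
    rw [W]
    exact (RR_stoch h _ _ (not_cg_of_lt (by omega) (by omega))).mul (ih (by omega))

theorem Sc_stoch {θ : ℤ → ℝ} {m : ℤ} (hL : 2 ≤ L) (h : Adm L θ m) :
    ColStoch (Sc θ m : Matrix (Pat L) (Pat L) ℝ) := by
  unfold Sc
  exact (mapMat_colStoch _).mul (W_stoch h _ (by omega))

theorem W_pos {θ : ℤ → ℝ} {m : ℤ} (h : Adm L θ m) : ∀ k : ℕ, k + 1 ≤ L →
    PosAt (W θ m k : Matrix (Pat L) (Pat L) ℝ) (gk m k) := by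
  intro k
  induction k with
  | zero => intro _; exact PosAt.one
  | succ k ih =>
    intro hk
    have hn : ¬ Cg L (m + 1 + k) m := not_cg_of_lt (by omega) (by omega)
    have h1 : 0 < θ m - θ (m + 1 + k) := sub_pos.2 (h.max _ hn)
    have h2 : θ m - θ (m + 1 + k) < 2 * Real.pi / 3 := lt_of_abs_lt (h.abs_lt _ _)
    have hs := RR_stoch h (m + k) (m + 1 + k) hn
    rw [W, gk]
    split_ifs with he
    · exact PosAt.mul (PosAt.Rm_map (br_pos h1 h2) (br_lt_one h1 h2).le _) (ih (by omega)) hs.1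
        (W_stoch h k (by omega)).1
    · have := PosAt.mul (f := id) (PosAt.Rm_id (br_pos h1 h2).le (br_lt_one h1 h2) (E (m + k)))
        (ih (by omega)) hs.1 (W_stoch h k (by omega)).1
      exact this

theorem gk_arc (m : ℤ) (P : Pat L) : ∀ k : ℕ, k + 1 ≤ L → ∀ l : ℕ, Even l → l < k →
    (gk m k P).m (m + l) = m + l + 1 := by
  intro k
  induction k with
  | zero => intro _ l _ hl; omega
  | succ k ih =>
    intro hk l hl hlk
    rw [gk]
    split_ifs with he
    · rw [Function.comp_apply]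
      rcases Nat.lt_or_ge l k with h | h
      · have h0 := ih (by omega) l hl h
        have hlk2 : l + 2 ≤ k := by
          rcases hl with ⟨a, ha⟩
          rcases he with ⟨b, hb⟩
          omega
        rw [E.other]
        · exact h0
        · intro hc; exact not_cg_of_lt (by omega) (by omega) (Cg.symm' hc)
        · intro hc; exact not_cg_of_lt (by omega) (by omega) (Cg.symm' hc)
        · rw [h0]; intro hc; exact not_cg_of_lt (by omega) (by omega) (Cg.symm' hc)
        · rw [h0]; intro hc; exact not_cg_of_lt (by omega) (by omega) (Cg.symm' hc)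
      · have : l = k := by omega
        subst this
        exact E.self _ _
    · rcases Nat.lt_or_ge l k with h | h
      · exact ih (by omega) l hl h
      · have : l = k := by omega
        subst this
        exact absurd hl he

theorem gk_const (hL : 2 ≤ L) (he : Even L) (m : ℤ) (P P' : Pat L) :
    gk m (L - 1) P = gk m (L - 1) P' := by
  have h1 := gk_arc m P (L - 1) (by omega)
  have h2 := gk_arc m P' (L - 1) (by omega)
  apply Pat.ext
  funext x
  have hpos : (0 : ℤ) < L := by omega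
  obtain ⟨r, hr⟩ : ∃ r : ℕ, (r : ℤ) = (x - m) % L :=
    ⟨((x - m) % L).toNat, Int.toNat_of_nonneg (Int.emod_nonneg _ hpos.ne')⟩
  have hrL : r < L := by
    have := Int.emod_lt_of_pos (x - m) hpos
    omega
  have hx : Cg L x (m + r) := by
    unfold Cg
    rw [hr, show x - (m + (x - m) % L) = (x - m) - (x - m) % L by ring]
    exact Int.dvd_self_sub_emod
  refine Pat.eq_of_dvd hx ?_
  rcases Nat.even_or_odd r with hre | hro
  · have : r < L - 1 := by
      rcases he with ⟨a, ha⟩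
      rcases hre with ⟨b, hb⟩
      omega
    rw [h1 r hre this, h2 r hre this]
  · obtain ⟨s, hs⟩ : ∃ s, r = s + 1 := ⟨r - 1, by rcases hro with ⟨b, hb⟩; omega⟩
    have hse : Even s := by
      rcases hro with ⟨b, hb⟩
      exact ⟨b, by omega⟩
    have g1 := congrArg (gk m (L - 1) P).m (h1 s hse (by omega))
    have g2 := congrArg (gk m (L - 1) P').m (h2 s hse (by omega))
    rw [Pat.inv] at g1 g2
    rw [hs]
    push_cast
    rw [← add_assoc, ← g1, ← g2]

/-- Existence and uniqueness of the normalised fixed vector. -/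
theorem Sc_fixed {θ : ℤ → ℝ} {m : ℤ} (P₀ : Pat L) (h : Adm L θ m) :
    ∃! v : Pat L → ℝ, Sc θ m *ᵥ v = v ∧ ∑ P, v P = 1 := by
  have hL := P₀.two_le
  have hE := even_of_pat P₀
  have hpos : PosAt (Sc θ m : Matrix (Pat L) (Pat L) ℝ) (H56.EX.rot ∘ gk m (L - 1)) := by
    unfold Sc
    exact PosAt.mul (PosAt.mapMat _) (W_pos h _ (by omega)) (mapMat_colStoch _).1
      (W_stoch h _ (by omega)).1
  apply exists_unique_fixed (Sc_stoch hL h) (k := 1) (s := H56.EX.rot (gk m (L - 1) P₀))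
  intro P
  rw [pow_one]
  have := hpos P
  rwa [Function.comp_apply, gk_const hL hE m P P₀] at this

open Classical in
/-- The normalised fixed vector (for admissible angles). -/
noncomputable def psiR (L : ℕ) (θ : ℤ → ℝ) : Pat L → ℝ :=
  if h : ∃ v : Pat L → ℝ, ∃ m, Adm L θ m ∧ Sc θ m *ᵥ v = v ∧ ∑ P, v P = 1 then h.choose else 0

theorem Adm.max_unique {θ : ℤ → ℝ} {m m' : ℤ} (h : Adm L θ m) (h' : Adm L θ m') : Cg L m m' := by
  by_contra hc
  have h1 := h'.max m hc
  have h2 := h.max m' (fun h => hc (Cg.symm' h))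
  linarith

theorem psiR_spec {θ : ℤ → ℝ} {m : ℤ} (P₀ : Pat L) (h : Adm L θ m) :
    Sc θ m *ᵥ psiR L θ = psiR L θ ∧ ∑ P, psiR L θ P = 1 := by
  have hex : ∃ v : Pat L → ℝ, ∃ m, Adm L θ m ∧ Sc θ m *ᵥ v = v ∧ ∑ P, v P = 1 := by
    obtain ⟨v, hv, -⟩ := Sc_fixed P₀ h
    exact ⟨v, m, h, hv⟩
  unfold psiR
  rw [dif_pos hex]
  obtain ⟨m', h', h1, h2⟩ := hex.choose_spec
  refine ⟨?_, h2⟩
  rw [Sc_congr h.per (h.max_unique h')]
  exact h1

theorem psiR_unique {θ : ℤ → ℝ} {m : ℤ} (P₀ : Pat L) (h : Adm L θ m) {v : Pat L → ℝ}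
    (h1 : Sc θ m *ᵥ v = v) (h2 : ∑ P, v P = 1) : v = psiR L θ :=
  (Sc_fixed P₀ h).unique ⟨h1, h2⟩ (psiR_spec P₀ h)

/-- Sum of the coordinates is preserved by `R`. -/
theorem RR_sum (i : ℤ) (δ : ℝ) (v : Pat L → ℝ) : ∑ P, (RR i δ *ᵥ v) P = ∑ P, v P := by
  unfold RR Rm
  simp only [Matrix.add_mulVec, Matrix.smul_mulVec, Matrix.one_mulVec, Pi.add_apply,
    Pi.smul_apply, smul_eq_mul]
  rw [Finset.sum_add_distrib, ← Finset.mul_sum, ← Finset.mul_sum]
  have := (mapMat_colStoch (E i : Pat L → Pat L)).sum_mulVec v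
  unfold EM
  rw [this]; ring

theorem psiR_rot {θ : ℤ → ℝ} {m : ℤ} (P₀ : Pat L) (h : Adm L θ m) :
    RotM *ᵥ psiR L θ = psiR L (fun x => θ (x - 1)) := by
  apply psiR_unique P₀ h.rot
  · rw [Matrix.mulVec_mulVec, ← Sc_rot, ← Matrix.mulVec_mulVec, (psiR_spec P₀ h).1]
  · have := (mapMat_colStoch (H56.EX.rot : Pat L → Pat L)).sum_mulVec (psiR L θ)
    unfold RotM
    rw [this, (psiR_spec P₀ h).2]

theorem psiR_exch_max {θ : ℤ → ℝ} {m : ℤ} (P₀ : Pat L) (h : Adm L θ m) :
    RR m (θ m - θ (m + 1)) *ᵥ psiR L θ = psiR L (sw L m θ) := by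
  have hL := P₀.two_le
  have h' := h.sw hL m
  rw [tau_of_i (Cg.refl' m)] at h'
  apply psiR_unique P₀ h'
  · rw [Matrix.mulVec_mulVec, ← Sc_swap_max hL h.per, ← Matrix.mulVec_mulVec,
      (psiR_spec P₀ h).1]
  · rw [RR_sum, (psiR_spec P₀ h).2]

/-- The exchange relation for the normalised vector. -/
theorem psiR_exch {θ : ℤ → ℝ} {m : ℤ} (P₀ : Pat L) (h : Adm L θ m) (i : ℤ) :
    RR i (θ i - θ (i + 1)) *ᵥ psiR L θ = psiR L (sw L i θ) := by
  have hL := P₀.two_le
  have hpos : (0 : ℤ) < L := by omega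
  -- reduce to `m ≤ i < m + L`
  obtain ⟨j, hj⟩ : ∃ j, j = m + (i - m) % L := ⟨_, rfl⟩
  have hj0 := Int.emod_nonneg (i - m) hpos.ne'
  have hj1 := Int.emod_lt_of_pos (i - m) hpos
  have hc : Cg L i j := by
    unfold Cg
    rw [hj, show i - (m + (i - m) % L) = (i - m) - (i - m) % L by ring]
    exact Int.dvd_self_sub_emod
  have hsw : sw L i θ = sw L j θ := by
    funext x
    unfold sw
    have e1 : Cg L x i ↔ Cg L x j := ⟨fun h' => Cg.trans' h' hc,
      fun h' => Cg.trans' h' (Cg.symm' hc)⟩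
    have e2 : Cg L x (i + 1) ↔ Cg L x (j + 1) := ⟨fun h' => Cg.trans' h' (Cg.add 1 hc),
      fun h' => Cg.trans' h' (Cg.symm' (Cg.add 1 hc))⟩
    simp only [e1, e2]
  rw [hsw, RR_congr hc, h.congr hc, h.congr (Cg.add 1 hc)]
  rcases lt_or_ge m j with h1 | h1
  · rcases lt_or_ge (j + 1) (m + L) with h2 | h2
    · have h' := h.sw hL j
      rw [tau_other (fun hc => not_cg_of_lt (by omega) (by omega) (Cg.symm' hc))
        (fun hc => not_cg_of_lt (by omega) (by omega) (Cg.symm' hc))] at h'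
      apply psiR_unique P₀ h'
      · rw [Matrix.mulVec_mulVec, ← Sc_swap_other h m j h1 h2, ← Matrix.mulVec_mulVec,
          (psiR_spec P₀ h).1]
      · rw [RR_sum, (psiR_spec P₀ h).2]
    · -- the maximal line is at `j + 1`
      have hj2 : j + 1 = m + L := by omega
      have hcm : Cg L m (j + 1) := by rw [hj2]; unfold Cg; simp
      have h' := h.sw hL j
      rw [tau_of_succ hL hcm] at h'
      have hcj : Cg L (m - 1) j := by
        have := Cg.sub 1 hcm
        rwa [add_sub_cancel_right] at this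
      have h'' : Adm L (sw L j θ) j := by
        refine ⟨h'.per, h'.pos, h'.lt, h'.inj, fun x hx => ?_⟩
        rw [← h'.congr hcj]
        exact h'.max x fun hx' => hx (Cg.trans' hx' hcj)
      have key := psiR_exch_max P₀ h''
      rw [sw_sw hL, sw_of_i (Cg.refl' j), sw_of_succ hL (Cg.refl' (j + 1)),
        add_sub_cancel_right] at key
      rw [← key, Matrix.mulVec_mulVec]
      have := RR_inv (L := L) j (h.abs_lt j (j + 1))
      rw [neg_sub] at this
      rw [this, Matrix.one_mulVec]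
  · have : j = m := by omega
    rw [this]
    exact psiR_exch_max P₀ h

end Pool.Agent.H12.QKZ
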