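import Mathlib

/-!
# The R-matrix of the dense O(1) loop model: algebra

`Rm u e = (1 - u) • 1 + u • e` in an algebra, with `e * e = e`; unitarity and the Yang-Baxter equation.
-/

namespace Pool.Agent.H12.QKZ

section algebra

variable {K A : Type*} [CommRing K] [Ring A] [Algebra K A]

/-- The R-matrix with weight `u` of the turning `e` and weight `1 - u` of the identity. -/
def Rm (u : K) (e : A) : A := (1 - u) • (1 : A) + u • e

theorem Rm_zero (e : A) : Rm (0 : K) e = 1 := by simp [Rm]

theorem Rm_one (e : A) : Rm (1 : K) e = e := by simp [Rm]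

theorem Rm_mul (u v : K) {e : A} (he : e * e = e) : Rm u e * Rm v e = Rm (u + v - u * v) e := by
  simp only [Rm, mul_add, add_mul, smul_mul_smul_comm, one_mul, mul_one, he]
  module

theorem Rm_unitary {u v : K} (h : u + v = u * v) {e : A} (he : e * e = e) :
    Rm u e * Rm v e = 1 := by
  rw [Rm_mul u v he, h, sub_self, Rm_zero]

theorem Rm_comm {u v : K} {e f : A} (h : e * f = f * e) : Rm u e * Rm v f = Rm v f * Rm u e := by
  simp only [Rm, mul_add, add_mul, smul_mul_smul_comm, one_mul, mul_one, h]
  module

/-- Yang-Baxter equation. -/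
theorem Rm_ybe {u v w : K} (h : v * (1 - u * w) = u + w - u * w) {e f : A}
    (he : e * e = e) (hf : f * f = f) (hef : e * f * e = e) (hfe : f * e * f = f) :
    Rm u e * Rm v f * Rm w e = Rm w f * Rm v e * Rm u f := by
  have h1 : Rm u e * Rm v f * Rm w e
      = ((1 - u) * (1 - v) * (1 - w)) • (1 : A)
        + (u * (1 - v) * (1 - w) + (1 - u) * (1 - v) * w + u * (1 - v) * w + u * v * w) • e
        + ((1 - u) * v * (1 - w)) • f + (u * v * (1 - w)) • (e * f)
        + ((1 - u) * v * w) • (f * e) := by
    simp only [Rm, mul_add, add_mul, smul_mul_smul_comm, one_mul, mul_one, he, hef]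
    module
  have h2 : Rm w f * Rm v e * Rm u f
      = ((1 - u) * (1 - v) * (1 - w)) • (1 : A)
        + (w * (1 - v) * (1 - u) + (1 - w) * (1 - v) * u + w * (1 - v) * u + w * v * u) • f
        + ((1 - w) * v * (1 - u)) • e + (w * v * (1 - u)) • (f * e)
        + ((1 - w) * v * u) • (e * f) := by
    simp only [Rm, mul_add, add_mul, smul_mul_smul_comm, one_mul, mul_one, hf, hfe]
    module
  have c1 : u * (1 - v) * (1 - w) + (1 - u) * (1 - v) * w + u * (1 - v) * w + u * v * w
      = (1 - w) * v * (1 - u) := by linear_combination -h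
  have c2 : w * (1 - v) * (1 - u) + (1 - w) * (1 - v) * u + w * (1 - v) * u + w * v * u
      = (1 - u) * v * (1 - w) := by linear_combination -h
  rw [h1, h2, c1, c2]
  have c3 : u * v * (1 - w) = (1 - w) * v * u := by ring
  have c4 : (1 - u) * v * w = w * v * (1 - u) := by ring
  rw [c3, c4]
  module

end algebra

end Pool.Agent.H12.QKZ
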