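import Mathlib
import Pool.Agent.H12.QKZ.RMat

/-!
# The weights of the R-matrix

`bw q z w = (z - w) / (q w - q² z)` with `q² + q + 1 = 0` (so `q² = q⁻¹`), and its value on the unit
circle, where it is real.
-/

namespace Pool.Agent.H12.QKZ

section field

variable {K : Type*} [Field K]

/-- Weight of `e` in the R-matrix. -/
def bw (q z w : K) : K := (z - w) / (q * w - q ^ 2 * z)

theorem bw_self (q z : K) : bw q z z = 0 := by simp [bw]

theorem q_cube {q : K} (hq : q ^ 2 + q + 1 = 0) : q ^ 3 = 1 := by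
  linear_combination (q - 1) * hq

theorem q_ne_zero {q : K} (hq : q ^ 2 + q + 1 = 0) : q ≠ 0 := by
  rintro rfl; simp at hq

theorem bw_unitary {q : K} (hq : q ^ 2 + q + 1 = 0) {z w : K} (h1 : q * w - q ^ 2 * z ≠ 0)
    (h2 : q * z - q ^ 2 * w ≠ 0) : bw q z w + bw q w z = bw q z w * bw q w z := by
  unfold bw
  rw [div_add_div _ _ h1 h2, div_mul_div_comm]
  congr 1
  linear_combination ((z - w) ^ 2) * hq

theorem bw_ybe {q : K} (hq : q ^ 2 + q + 1 = 0) {x y z : K} (h1 : q * y - q ^ 2 * x ≠ 0)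
    (h2 : q * z - q ^ 2 * x ≠ 0) (h3 : q * z - q ^ 2 * y ≠ 0) :
    bw q x z * (1 - bw q x y * bw q y z) = bw q x y + bw q y z - bw q x y * bw q y z := by
  unfold bw
  obtain ⟨A, hA⟩ : ∃ A, A = q * y - q ^ 2 * x := ⟨_, rfl⟩
  obtain ⟨B, hB⟩ : ∃ B, B = q * z - q ^ 2 * x := ⟨_, rfl⟩
  obtain ⟨C, hC⟩ : ∃ C, C = q * z - q ^ 2 * y := ⟨_, rfl⟩
  rw [← hA] at h1 ⊢
  rw [← hB] at h2 ⊢
  rw [← hC] at h3 ⊢
  have key : (x - z) * (A * C - (x - y) * (y - z))
      = (x - y) * B * C + (y - z) * A * B - (x - y) * (y - z) * B := by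
    subst hA hB hC
    linear_combination (q * x * y * z - q * x * y ^ 2 + q * x ^ 2 * y - q * x ^ 2 * z
      - q ^ 2 * x * y * z + q ^ 2 * x * y ^ 2 - q ^ 2 * x ^ 2 * y + q ^ 2 * x ^ 2 * z
      + x * y ^ 2 - x * z ^ 2 - x ^ 2 * y + x ^ 2 * z + y * z ^ 2 - y ^ 2 * z) * hq
  have e1 : (x - z) / B * (1 - (x - y) / A * ((y - z) / C))
      = (x - z) * (A * C - (x - y) * (y - z)) / (A * B * C) := by
    field_simp
  have e2 : (x - y) / A + (y - z) / C - (x - y) / A * ((y - z) / C)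
      = ((x - y) * B * C + (y - z) * A * B - (x - y) * (y - z) * B) / (A * B * C) := by
    field_simp
  rw [e1, e2, key]

end field

end Pool.Agent.H12.QKZ
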