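import Mathlib
import Pool.Agent.H12.QKZ.Weights

/-!
# The weights on the unit circle
-/

namespace Pool.Agent.H12.QKZ

open Complex

/-- The cube root of unity `e^{2πi/3}`. -/
noncomputable def qc : ℂ := Complex.exp ((2 * Real.pi / 3 : ℝ) * I)

theorem qc_cos_sin : qc = (-1 / 2 : ℝ) + (Real.sqrt 3 / 2 : ℝ) * I := by
  unfold qc
  rw [Complex.exp_mul_I, ← Complex.ofReal_cos, ← Complex.ofReal_sin]
  have h1 : Real.cos (2 * Real.pi / 3) = -1 / 2 := by
    rw [show 2 * Real.pi / 3 = Real.pi - Real.pi / 3 by ring, Real.cos_pi_sub,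
      Real.cos_pi_div_three]
    ring
  have h2 : Real.sin (2 * Real.pi / 3) = Real.sqrt 3 / 2 := by
    rw [show 2 * Real.pi / 3 = Real.pi - Real.pi / 3 by ring, Real.sin_pi_sub,
      Real.sin_pi_div_three]
  rw [h1, h2]

theorem qc_eq : qc ^ 2 + qc + 1 = 0 := by
  have hne : qc ≠ 1 := by
    rw [qc_cos_sin]
    intro h
    have := congrArg Complex.re h
    simp at this
    norm_num at this
  have h3 : qc ^ 3 = 1 := by
    unfold qc
    rw [← Complex.exp_nat_mul]
    rw [show ((3 : ℕ) : ℂ) * (((2 * Real.pi / 3 : ℝ) : ℂ) * I) = 2 * Real.pi * I by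
      push_cast; ring]
    exact Complex.exp_two_pi_mul_I
  have : (qc - 1) * (qc ^ 2 + qc + 1) = 0 := by linear_combination h3
  rcases mul_eq_zero.1 this with h | h
  · exact absurd (sub_eq_zero.1 h) hne
  · exact h

/-- Real form of the weight. -/
noncomputable def br (δ : ℝ) : ℝ := Real.sin (δ / 2) / Real.sin (2 * Real.pi / 3 - δ / 2)

/-- Points of the unit circle. -/
noncomputable def zc (t : ℝ) : ℂ := Complex.exp ((t : ℂ) * I)

theorem zc_ne_zero (t : ℝ) : zc t ≠ 0 := Complex.exp_ne_zero _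

theorem zc_sub (t s : ℝ) : zc t - zc s
    = Complex.exp (((t + s) / 2 : ℝ) * I) * (2 * I) * (Real.sin ((t - s) / 2) : ℝ) := by
  have h1 : zc t = Complex.exp (((t + s) / 2 : ℝ) * I) * Complex.exp (((t - s) / 2 : ℝ) * I) := by
    rw [← Complex.exp_add]; unfold zc; congr 1; push_cast; ring
  have h2 : zc s = Complex.exp (((t + s) / 2 : ℝ) * I) * Complex.exp (-((t - s) / 2 : ℝ) * I) := by
    rw [← Complex.exp_add]; unfold zc; congr 1; push_cast; ring
  rw [h1, h2, ← mul_sub, mul_assoc]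
  congr 1
  rw [Complex.ofReal_sin, Complex.sin]
  have : I * I = -1 := Complex.I_mul_I
  linear_combination
    (Complex.exp (((t - s) / 2 : ℝ) * I) - Complex.exp (-((t - s) / 2 : ℝ) * I)) * this

theorem den_eq (t s : ℝ) : qc * zc s - qc ^ 2 * zc t
    = Complex.exp (((t + s) / 2 : ℝ) * I) * (2 * I) *
      (Real.sin (2 * Real.pi / 3 - (t - s) / 2) : ℝ) := by
  have h1 : qc * zc s = zc (2 * Real.pi / 3 + s) := by
    unfold qc zc; rw [← Complex.exp_add]; congr 1; push_cast; ring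
  have h2 : qc ^ 2 * zc t = zc (t - 2 * Real.pi / 3) := by
    unfold qc zc
    rw [← Complex.exp_nat_mul, ← Complex.exp_add]
    have : Complex.exp (((2 : ℕ) : ℂ) * (((2 * Real.pi / 3 : ℝ) : ℂ) * I) + (t : ℂ) * I)
        = Complex.exp (((t - 2 * Real.pi / 3 : ℝ) : ℂ) * I + 2 * Real.pi * I) := by
      congr 1; push_cast; ring
    rw [this, Complex.exp_add, Complex.exp_two_pi_mul_I, mul_one]
  rw [h1, h2, zc_sub]
  congr 3
  · congr 2; push_cast; ring
  · congr 1; ring_nf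

theorem sin_den_pos {δ : ℝ} (h1 : -(2 * Real.pi / 3) < δ) (h2 : δ < 4 * Real.pi / 3) :
    0 < Real.sin (2 * Real.pi / 3 - δ / 2) := by
  apply Real.sin_pos_of_pos_of_lt_pi <;> linarith [Real.pi_pos]

theorem den_ne_zero {t s : ℝ} (h1 : -(2 * Real.pi / 3) < t - s) (h2 : t - s < 4 * Real.pi / 3) :
    qc * zc s - qc ^ 2 * zc t ≠ 0 := by
  rw [den_eq]
  refine mul_ne_zero (mul_ne_zero (Complex.exp_ne_zero _) ?_) ?_
  · simp
  · exact_mod_cast (sin_den_pos h1 h2).ne'

theorem bw_zc {t s : ℝ} : bw qc (zc t) (zc s) = (br (t - s) : ℝ) := by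
  unfold bw br
  rw [den_eq, zc_sub, mul_div_mul_left]
  · push_cast; rfl
  · refine mul_ne_zero (Complex.exp_ne_zero _) ?_
    simp

theorem br_zero : br 0 = 0 := by simp [br]

theorem br_unitary {δ : ℝ} (h1 : -(2 * Real.pi / 3) < δ) (h2 : δ < 2 * Real.pi / 3) :
    br δ + br (-δ) = br δ * br (-δ) := by
  have h := bw_unitary (K := ℂ) qc_eq (z := zc δ) (w := zc 0)
    (den_ne_zero (by simpa using h1) (by simpa using by linarith [Real.pi_pos]))
    (den_ne_zero (t := 0) (s := δ) (by linarith) (by linarith))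
  rw [bw_zc, bw_zc, sub_zero, zero_sub] at h
  exact_mod_cast h

theorem br_ybe {x y z : ℝ} (h1 : |x - y| < 2 * Real.pi / 3) (h2 : |x - z| < 2 * Real.pi / 3)
    (h3 : |y - z| < 2 * Real.pi / 3) :
    br (x - z) * (1 - br (x - y) * br (y - z))
      = br (x - y) + br (y - z) - br (x - y) * br (y - z) := by
  have hh : ∀ {a b : ℝ}, |a - b| < 2 * Real.pi / 3 → qc * zc b - qc ^ 2 * zc a ≠ 0 := by
    intro a b hab
    rw [abs_lt] at hab
    exact den_ne_zero hab.1 (by linarith [hab.2, Real.pi_pos])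
  have h := bw_ybe (K := ℂ) qc_eq (hh h1) (hh h2) (hh h3)
  rw [bw_zc, bw_zc, bw_zc] at h
  exact_mod_cast h

theorem br_pos {δ : ℝ} (h1 : 0 < δ) (h2 : δ < 2 * Real.pi / 3) : 0 < br δ := by
  apply div_pos
  · apply Real.sin_pos_of_pos_of_lt_pi <;> linarith [Real.pi_pos]
  · exact sin_den_pos (by linarith) (by linarith)

theorem br_lt_one {δ : ℝ} (h1 : 0 < δ) (h2 : δ < 2 * Real.pi / 3) : br δ < 1 := by
  unfold br
  rw [div_lt_one (sin_den_pos (by linarith) (by linarith))]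
  rcases le_or_gt (2 * Real.pi / 3 - δ / 2) (Real.pi / 2) with h | h
  · apply Real.sin_lt_sin_of_lt_of_le_pi_div_two <;> linarith [Real.pi_pos]
  · rw [← Real.sin_pi_sub (2 * Real.pi / 3 - δ / 2)]
    apply Real.sin_lt_sin_of_lt_of_le_pi_div_two <;> linarith [Real.pi_pos]

end Pool.Agent.H12.QKZ
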