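import Pool.Agent.H12.QKZ.Doeblin
import Pool.Agent.H12.QKZ.Trig
import Pool.Agent.H56.EX.TL

/-!
# The scattering matrix of the line with the largest angle
-/

namespace Pool.Agent.H12.QKZ

open H56.EX Matrix

set_option linter.unusedSectionVars false

section mapMat

variable {S : Type*} [Fintype S] [DecidableEq S]

/-- The matrix of a map. -/
def mapMat (f : S → S) : Matrix S S ℝ := fun a b => if f b = a then 1 else 0

theorem mapMat_mul (f g : S → S) : mapMat f * mapMat g = mapMat (f ∘ g) := by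
  ext a b
  rw [Matrix.mul_apply, Finset.sum_eq_single (g b)]
  · simp [mapMat]
  · intro c _ hc
    simp [mapMat, Ne.symm hc]
  · intro h; exact absurd (Finset.mem_univ _) h

theorem mapMat_congr {f g : S → S} (h : ∀ x, f x = g x) : mapMat f = mapMat g := by
  rw [show f = g from funext h]

theorem mapMat_colStoch (f : S → S) : ColStoch (mapMat f) := by
  refine ⟨fun a b => ?_, fun b => ?_⟩
  · unfold mapMat; split_ifs <;> norm_num
  · simp [mapMat]

theorem mapMat_mulVec (f : S → S) (v : S → ℝ) (a : S) :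
    (mapMat f *ᵥ v) a = ∑ b, if f b = a then v b else 0 := by
  simp [Matrix.mulVec, dotProduct, mapMat]

theorem Rm_colStoch {u : ℝ} (h0 : 0 ≤ u) (h1 : u ≤ 1) {A : Matrix S S ℝ} (hA : ColStoch A) :
    ColStoch (Rm u A) := by
  refine ⟨fun a b => ?_, fun b => ?_⟩
  · have h2 := hA.1 a b
    have h3 := (ColStoch.one (S := S)).1 a b
    simp only [Rm, Matrix.add_apply, Matrix.smul_apply, smul_eq_mul]
    exact add_nonneg (mul_nonneg (by linarith) h3) (mul_nonneg h0 h2)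
  · simp only [Rm, Matrix.add_apply, Matrix.smul_apply, smul_eq_mul]
    rw [Finset.sum_add_distrib, ← Finset.mul_sum, ← Finset.mul_sum, hA.2,
      (ColStoch.one (S := S)).2]
    ring

/-- `A` has positive entries at `(f P, P)`. -/
def PosAt (A : Matrix S S ℝ) (f : S → S) : Prop := ∀ P, 0 < A (f P) P

theorem PosAt.mul {A B : Matrix S S ℝ} {f g : S → S} (hA : PosAt A f) (hB : PosAt B g)
    (hA' : ∀ i j, 0 ≤ A i j) (hB' : ∀ i j, 0 ≤ B i j) : PosAt (A * B) (f ∘ g) := by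
  intro P
  rw [Matrix.mul_apply]
  exact Finset.sum_pos' (fun c _ => mul_nonneg (hA' _ _) (hB' _ _))
    ⟨g P, Finset.mem_univ _, mul_pos (hA _) (hB _)⟩

theorem PosAt.mapMat (f : S → S) : PosAt (mapMat f) f := by
  intro P; simp [Pool.Agent.H12.QKZ.mapMat]

theorem PosAt.one : PosAt (1 : Matrix S S ℝ) id := by
  intro P
  show 0 < (1 : Matrix S S ℝ) P P
  rw [Matrix.one_apply_eq]; norm_num

theorem PosAt.Rm_map {u : ℝ} (h0 : 0 < u) (h1 : u ≤ 1) (f : S → S) :
    PosAt (Rm u (Pool.Agent.H12.QKZ.mapMat f)) f := by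
  intro P
  simp only [Rm, Matrix.add_apply, Matrix.smul_apply, smul_eq_mul]
  have h3 := (ColStoch.one (S := S)).1 (f P) P
  have h4 : Pool.Agent.H12.QKZ.mapMat f (f P) P = 1 := by simp [Pool.Agent.H12.QKZ.mapMat]
  rw [h4]
  have : 0 ≤ (1 - u) * (1 : Matrix S S ℝ) (f P) P := mul_nonneg (by linarith) h3
  linarith

theorem PosAt.Rm_id {u : ℝ} (h0 : 0 ≤ u) (h1 : u < 1) (f : S → S) :
    PosAt (Rm u (Pool.Agent.H12.QKZ.mapMat f)) id := by
  intro P
  simp only [Rm, Matrix.add_apply, Matrix.smul_apply, smul_eq_mul, id]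
  have h3 := (mapMat_colStoch f).1 P P
  rw [Matrix.one_apply_eq]
  have : 0 ≤ u * Pool.Agent.H12.QKZ.mapMat f P P := mul_nonneg h0 h3
  linarith

end mapMat

variable {L : ℕ}

/-- Matrix of `e_i`. -/
noncomputable def EM (i : ℤ) : Matrix (Pat L) (Pat L) ℝ := mapMat (E i)

/-- Matrix of the rotation. -/
noncomputable def RotM : Matrix (Pat L) (Pat L) ℝ := mapMat rot

theorem EM_sq (i : ℤ) : (EM i : Matrix (Pat L) (Pat L) ℝ) * EM i = EM i := by
  unfold EM
  rw [mapMat_mul]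
  exact mapMat_congr fun P => E.idem P i

theorem EM_braid (hL : 3 ≤ L) (i : ℤ) :
    (EM i : Matrix (Pat L) (Pat L) ℝ) * EM (i + 1) * EM i = EM i := by
  unfold EM
  rw [mapMat_mul, mapMat_mul]
  exact mapMat_congr fun P => E_braid i P hL

theorem EM_braid' (hL : 3 ≤ L) (i : ℤ) :
    (EM (i + 1) : Matrix (Pat L) (Pat L) ℝ) * EM i * EM (i + 1) = EM (i + 1) := by
  unfold EM
  rw [mapMat_mul, mapMat_mul]
  exact mapMat_congr fun P => E_braid' i P hL

theorem EM_comm {i j : ℤ} (h1 : ¬ Cg L i j) (h2 : ¬ Cg L i (j + 1)) (h3 : ¬ Cg L (i + 1) j) :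
    (EM i : Matrix (Pat L) (Pat L) ℝ) * EM j = EM j * EM i := by
  unfold EM
  rw [mapMat_mul, mapMat_mul]
  exact mapMat_congr fun P => E_comm P h1 h2 h3

theorem EM_congr {i j : ℤ} (h : Cg L i j) : (EM i : Matrix (Pat L) (Pat L) ℝ) = EM j :=
  mapMat_congr fun P => E_congr h P

theorem RotM_EM (i : ℤ) : (RotM : Matrix (Pat L) (Pat L) ℝ) * EM i = EM (i + 1) * RotM := by
  unfold EM RotM
  rw [mapMat_mul, mapMat_mul]
  exact mapMat_congr fun P => rot_E i P

/-- The R-matrix at position `i` with angle difference `δ`. -/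
noncomputable def RR (i : ℤ) (δ : ℝ) : Matrix (Pat L) (Pat L) ℝ := Rm (br δ) (EM i)

theorem RR_congr {i j : ℤ} (h : Cg L i j) (δ : ℝ) :
    (RR i δ : Matrix (Pat L) (Pat L) ℝ) = RR j δ := by
  unfold RR; rw [EM_congr h]

theorem RotM_RR (i : ℤ) (δ : ℝ) :
    (RotM : Matrix (Pat L) (Pat L) ℝ) * RR i δ = RR (i + 1) δ * RotM := by
  unfold RR Rm
  rw [mul_add, add_mul, Matrix.mul_smul, Matrix.mul_smul, Matrix.smul_mul, Matrix.smul_mul,
    RotM_EM, mul_one, one_mul]

theorem RR_comm {i j : ℤ} (h1 : ¬ Cg L i j) (h2 : ¬ Cg L i (j + 1)) (h3 : ¬ Cg L (i + 1) j)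
    (δ ε : ℝ) : (RR i δ : Matrix (Pat L) (Pat L) ℝ) * RR j ε = RR j ε * RR i δ :=
  Rm_comm (EM_comm h1 h2 h3)

theorem RR_inv (i : ℤ) {δ : ℝ} (h : |δ| < 2 * Real.pi / 3) :
    (RR i δ : Matrix (Pat L) (Pat L) ℝ) * RR i (-δ) = 1 := by
  rw [abs_lt] at h
  exact Rm_unitary (br_unitary h.1 h.2) (EM_sq i)

theorem RR_ybe (hL : 3 ≤ L) (i : ℤ) {x y z : ℝ} (h1 : |x - y| < 2 * Real.pi / 3)
    (h2 : |x - z| < 2 * Real.pi / 3) (h3 : |y - z| < 2 * Real.pi / 3) :
    (RR i (y - z) : Matrix (Pat L) (Pat L) ℝ) * RR (i + 1) (x - z) * RR i (x - y)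
      = RR (i + 1) (x - y) * RR i (x - z) * RR (i + 1) (y - z) := by
  have h := br_ybe h1 h2 h3
  refine Rm_ybe ?_ (EM_sq i) (EM_sq (i + 1)) (EM_braid hL i) (EM_braid' hL i)
  linear_combination h

/-- Carry line `m` over the next `k` lines. -/
noncomputable def W (θ : ℤ → ℝ) (m : ℤ) : ℕ → Matrix (Pat L) (Pat L) ℝ
  | 0 => 1
  | k + 1 => RR (m + k) (θ m - θ (m + 1 + k)) * W θ m k

/-- The scattering matrix of line `m`. -/
noncomputable def Sc (θ : ℤ → ℝ) (m : ℤ) : Matrix (Pat L) (Pat L) ℝ := RotM * W θ m (L - 1)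

/-- Admissible angles with maximum at `m`. -/
structure Adm (L : ℕ) (θ : ℤ → ℝ) (m : ℤ) : Prop where
  per : ∀ x, θ (x + L) = θ x
  pos : ∀ x, 0 < θ x
  lt : ∀ x, θ x < Real.pi / 3
  inj : ∀ x y, ¬ Cg L x y → θ x ≠ θ y
  max : ∀ x, ¬ Cg L x m → θ x < θ m

theorem per_dvd_fun {α : Type*} {θ : ℤ → α} (h : ∀ x, θ (x + L) = θ x) {x y : ℤ}
    (hxy : Cg L x y) : θ x = θ y := by
  obtain ⟨t, ht⟩ := hxy
  have key : ∀ t : ℤ, ∀ y, θ (y + L * t) = θ y := by
    intro t
    induction t using Int.induction_on with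
    | zero => intro y; simp
    | succ a ih =>
      intro y
      rw [show y + (L : ℤ) * (a + 1) = y + L * a + L by ring, h, ih]
    | pred a ih =>
      intro y
      rw [← h (y + L * (-a - 1)), show y + (L : ℤ) * (-a - 1) + L = y + L * (-a) by ring, ih]
  rw [show x = y + L * t by linarith]
  exact key t y

theorem Adm.congr {θ : ℤ → ℝ} {m : ℤ} (h : Adm L θ m) {x y : ℤ} (hxy : Cg L x y) :
    θ x = θ y := per_dvd_fun h.per hxy

theorem Adm.abs_lt {θ : ℤ → ℝ} {m : ℤ} (h : Adm L θ m) (x y : ℤ) :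
    |θ x - θ y| < 2 * Real.pi / 3 := by
  rw [_root_.abs_lt]
  have h1 := h.pos x
  have h2 := h.lt x
  have h3 := h.pos y
  have h4 := h.lt y
  constructor <;> linarith [Real.pi_pos]

/-- Exchange of two neighbouring angles. -/
def sw (L : ℕ) (i : ℤ) (θ : ℤ → ℝ) : ℤ → ℝ :=
  fun x => if Cg L x i then θ (x + 1) else if Cg L x (i + 1) then θ (x - 1) else θ x

theorem not_cg_of_lt {x y : ℤ} (h1 : 0 < x - y) (h2 : x - y < L) : ¬ Cg L x y := by
  intro h
  have := Int.le_of_dvd h1 h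
  omega

theorem sw_of_i {θ : ℤ → ℝ} {i x : ℤ} (h : Cg L x i) : sw L i θ x = θ (x + 1) := by
  simp only [sw, if_pos h]

theorem sw_of_succ (hL : 2 ≤ L) {θ : ℤ → ℝ} {i x : ℤ} (h : Cg L x (i + 1)) :
    sw L i θ x = θ (x - 1) := by
  have h' : ¬ Cg L x i := fun h' => not_Cg_succ hL i (Cg.trans' (Cg.symm' h') h)
  simp only [sw, if_neg h', if_pos h]

theorem sw_other {θ : ℤ → ℝ} {i x : ℤ} (h : ¬ Cg L x i) (h' : ¬ Cg L x (i + 1)) :
    sw L i θ x = θ x := by
  simp only [sw, if_neg h, if_neg h']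

theorem W_swap_max (hL : 2 ≤ L) (θ : ℤ → ℝ) (m : ℤ) : ∀ k : ℕ, k + 2 ≤ L →
    (W θ m (k + 1) : Matrix (Pat L) (Pat L) ℝ)
      = W (sw L m θ) (m + 1) k * RR m (θ m - θ (m + 1)) := by
  intro k
  induction k with
  | zero =>
    intro _
    simp only [W, Nat.cast_zero, add_zero, mul_one, one_mul]
  | succ k ih =>
    intro hk
    have h1 : sw L m θ (m + 1) = θ m := by
      rw [sw_of_succ hL (Cg.refl' _)]; congr 1; ring
    have h2 : sw L m θ (m + 1 + 1 + k) = θ (m + 1 + (k + 1 : ℕ)) := by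
      rw [sw_other]
      · congr 1; push_cast; ring
      · apply not_cg_of_lt <;> omega
      · apply not_cg_of_lt <;> omega
    rw [W, ih (by omega)]
    conv_rhs => rw [W]
    rw [h1, h2, ← mul_assoc]
    congr 3
    push_cast; ring

/-- Conjugation of the scattering matrix when the maximal line is moved one step. -/
theorem Sc_swap_max (hL : 2 ≤ L) {θ : ℤ → ℝ} (hper : ∀ x, θ (x + L) = θ x) (m : ℤ) :
    RR m (θ m - θ (m + 1)) * (Sc θ m : Matrix (Pat L) (Pat L) ℝ)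
      = Sc (sw L m θ) (m + 1) * RR m (θ m - θ (m + 1)) := by
  obtain ⟨k, hk⟩ : ∃ k, L = k + 2 := ⟨L - 2, by omega⟩
  unfold Sc
  have e1 : L - 1 = k + 1 := by omega
  rw [e1, W_swap_max hL θ m k (by omega)]
  conv_rhs => rw [W]
  have h1 : sw L m θ (m + 1) = θ m := by
    rw [sw_of_succ hL (Cg.refl' _)]; congr 1; ring
  have h2 : sw L m θ (m + 1 + 1 + k) = θ (m + 1) := by
    have hc : Cg L (m + 1 + 1 + k) m := by
      unfold Cg; rw [hk]; push_cast
      rw [show m + 1 + 1 + (k : ℤ) - m = k + 2 by ring]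
    rw [sw_of_i hc]
    apply per_dvd_fun hper
    exact Cg.add 1 hc
  have h3 : (RotM : Matrix (Pat L) (Pat L) ℝ) * RR (m + 1 + k) (θ m - θ (m + 1))
      = RR m (θ m - θ (m + 1)) * RotM := by
    rw [RotM_RR, RR_congr (i := m + 1 + k + 1) (j := m)]
    unfold Cg; rw [hk]; push_cast
    rw [show m + 1 + (k : ℤ) + 1 - m = k + 2 by ring]
  rw [h1, h2]
  rw [← mul_assoc RotM (RR (m + 1 + k) _), h3]
  simp only [mul_assoc]

/-- `R` at a position far from the carried segment commutes with `W`. -/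
theorem RR_comm_W (θ : ℤ → ℝ) (m i : ℤ) (δ : ℝ) : ∀ k : ℕ, (m + k < i) → (i + 1 < m + L) →
    (RR i δ : Matrix (Pat L) (Pat L) ℝ) * W θ m k = W θ m k * RR i δ := by
  intro k
  induction k with
  | zero => intro _ _; simp [W]
  | succ k ih =>
    intro h1 h2
    push_cast at h1
    rw [W, ← mul_assoc, RR_comm, mul_assoc, ih (by omega) h2, ← mul_assoc]
    · apply not_cg_of_lt <;> omega
    · apply not_cg_of_lt <;> omega
    · apply not_cg_of_lt <;> omega

theorem W_sw_low (θ : ℤ → ℝ) (m i : ℤ) : ∀ k : ℕ, (m + k < i) → (i + 1 < m + L) →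
    (W (sw L i θ) m k : Matrix (Pat L) (Pat L) ℝ) = W θ m k := by
  intro k
  induction k with
  | zero => intro _ _; rfl
  | succ k ih =>
    intro h1 h2
    push_cast at h1
    rw [W, W, ih (by omega) h2]
    have e1 : sw L i θ m = θ m := by
      apply sw_other
      · intro h; exact not_cg_of_lt (by omega) (by omega) (Cg.symm' h)
      · intro h; exact not_cg_of_lt (by omega) (by omega) (Cg.symm' h)
    have e2 : sw L i θ (m + 1 + k) = θ (m + 1 + k) := by
      apply sw_other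
      · intro h; exact not_cg_of_lt (by omega) (by omega) (Cg.symm' h)
      · intro h; exact not_cg_of_lt (by omega) (by omega) (Cg.symm' h)
    rw [e1, e2]

theorem W_sw_mid (hL : 3 ≤ L) {θ : ℤ → ℝ} {m₀ : ℤ} (hθ : Adm L θ m₀) (m : ℤ) (j : ℕ) :
    ∀ d : ℕ, j + d + 3 ≤ L →
    RR (m + j) (θ (m + 1 + j) - θ (m + 1 + j + 1)) *
        (W θ m (j + 2 + d) : Matrix (Pat L) (Pat L) ℝ)
      = W (sw L (m + 1 + j) θ) m (j + 2 + d) *
        RR (m + 1 + j) (θ (m + 1 + j) - θ (m + 1 + j + 1)) := by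
  intro d
  have em : j + d + 3 ≤ L → sw L (m + 1 + j) θ m = θ m := by
    intro h
    apply sw_other
    · intro h; exact not_cg_of_lt (by omega) (by omega) (Cg.symm' h)
    · intro h; exact not_cg_of_lt (by omega) (by omega) (Cg.symm' h)
  induction d with
  | zero =>
    intro hk
    have em' := em hk
    simp only [add_zero]
    have e1 : sw L (m + 1 + j) θ (m + 1 + j) = θ (m + 1 + j + 1) := sw_of_i (Cg.refl' _)
    have e2 : sw L (m + 1 + j) θ (m + 1 + j + 1) = θ (m + 1 + j) := by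
      rw [sw_of_succ (by omega) (Cg.refl' _)]; congr 1; ring
    have hw : ∀ η : ℤ → ℝ, (W η m (j + 2) : Matrix (Pat L) (Pat L) ℝ)
        = RR (m + j + 1) (η m - η (m + 1 + j + 1)) *
          (RR (m + j) (η m - η (m + 1 + j)) * W η m j) := by
      intro η
      rw [W, W]
      push_cast
      rw [show m + ((j : ℤ) + 1) = m + j + 1 by ring,
        show m + 1 + ((j : ℤ) + 1) = m + 1 + j + 1 by ring]
    rw [hw, hw, em', e1, e2, W_sw_low θ m (m + 1 + j) j (by omega) (by omega)]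
    have hy := RR_ybe (L := L) hL (m + j) (hθ.abs_lt m (m + 1 + j))
      (hθ.abs_lt m (m + 1 + j + 1)) (hθ.abs_lt (m + 1 + j) (m + 1 + j + 1))
    rw [← mul_assoc, ← mul_assoc, hy]
    rw [show m + (j : ℤ) + 1 = m + 1 + j by ring] at *
    simp only [mul_assoc]
    rw [RR_comm_W θ m (m + 1 + j) _ j (by omega) (by omega)]
  | succ d ih =>
    intro hk
    have em' := em hk
    rw [show j + 2 + (d + 1) = (j + 2 + d) + 1 by ring, W, W, em']
    have e3 : sw L (m + 1 + j) θ (m + 1 + (j + 2 + d : ℕ)) = θ (m + 1 + (j + 2 + d : ℕ)) := by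
      apply sw_other <;> apply not_cg_of_lt <;> push_cast <;> omega
    rw [e3, ← mul_assoc, RR_comm, mul_assoc, ih (fun _ => em') (by omega), ← mul_assoc]
    · intro h; exact not_cg_of_lt (by push_cast; omega) (by push_cast; omega) (Cg.symm' h)
    · intro h; exact not_cg_of_lt (by push_cast; omega) (by push_cast; omega) (Cg.symm' h)
    · intro h; exact not_cg_of_lt (by push_cast; omega) (by push_cast; omega) (Cg.symm' h)

/-- A Yang-Baxter move through the maximal line. -/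
theorem Sc_swap_other {θ : ℤ → ℝ} {m₀ : ℤ} (hθ : Adm L θ m₀) (m i : ℤ) (h1 : m < i)
    (h2 : i + 1 < m + L) :
    RR i (θ i - θ (i + 1)) * (Sc θ m : Matrix (Pat L) (Pat L) ℝ)
      = Sc (sw L i θ) m * RR i (θ i - θ (i + 1)) := by
  obtain ⟨j, hj⟩ : ∃ j : ℕ, i = m + 1 + j := ⟨(i - m - 1).toNat, by omega⟩
  obtain ⟨d, hd⟩ : ∃ d : ℕ, L = j + d + 3 := ⟨L - j - 3, by omega⟩
  have hL : 3 ≤ L := by omega
  subst hj
  have key := W_sw_mid hL hθ m j d (by omega)
  have e : L - 1 = j + 2 + d := by omega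
  unfold Sc
  rw [e]
  have h3 : (RR (m + 1 + j) (θ (m + 1 + j) - θ (m + 1 + j + 1)) : Matrix (Pat L) (Pat L) ℝ)
      * RotM = RotM * RR (m + j) (θ (m + 1 + j) - θ (m + 1 + j + 1)) := by
    rw [RotM_RR, show m + (j : ℤ) + 1 = m + 1 + j by ring]
  rw [← mul_assoc, h3, mul_assoc, key, mul_assoc]

theorem W_rot (θ : ℤ → ℝ) (m : ℤ) : ∀ k : ℕ,
    (RotM : Matrix (Pat L) (Pat L) ℝ) * W θ m k = W (fun x => θ (x - 1)) (m + 1) k * RotM := by
  intro k
  induction k with
  | zero => simp [W]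
  | succ k ih =>
    rw [W, W, ← mul_assoc, RotM_RR, mul_assoc, ih, ← mul_assoc]
    simp only [add_sub_cancel_right]
    rw [show m + 1 + 1 + (k : ℤ) - 1 = m + 1 + k by ring,
      show m + (k : ℤ) + 1 = m + 1 + k by ring]

theorem Sc_rot (θ : ℤ → ℝ) (m : ℤ) :
    (RotM : Matrix (Pat L) (Pat L) ℝ) * Sc θ m = Sc (fun x => θ (x - 1)) (m + 1) * RotM := by
  unfold Sc
  rw [mul_assoc, ← W_rot]

end Pool.Agent.H12.QKZ
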