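import Mathlib
import Pool.Agent.H12.QKZ.DivDiff

/-!
# Joint degree and joint order
-/

namespace Pool.Agent.H12.QKZ

open MvPolynomial

set_option linter.unusedSectionVars false
set_option linter.unusedSimpArgs false

variable {σ K : Type*} [DecidableEq σ] [Field K]

/-- All exponents of `P` have joint degree in `S` between `lo` and `up`. -/
def Bd (S : Finset σ) (lo up : ℕ) (P : MvPolynomial σ K) : Prop :=
  ∀ e, coeff e P ≠ 0 → lo ≤ ∑ c ∈ S, e c ∧ ∑ c ∈ S, e c ≤ up

/-- For every set `S` of variables the joint degree of `P` in `S` is between `lo |S|` and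
`up |S|`. -/
def JointBd (lo up : ℕ → ℕ) (P : MvPolynomial σ K) : Prop :=
  ∀ S : Finset σ, Bd S (lo S.card) (up S.card) P

theorem Bd.add {S : Finset σ} {lo up : ℕ} {P Q : MvPolynomial σ K} (h : Bd S lo up P)
    (h' : Bd S lo up Q) : Bd S lo up (P + Q) := by
  intro e he
  rw [coeff_add] at he
  by_cases h0 : coeff e P = 0
  · rw [h0, zero_add] at he; exact h' e he
  · exact h e h0

theorem Bd.zero (S : Finset σ) (lo up : ℕ) : Bd S lo up (0 : MvPolynomial σ K) := by
  intro e he; simp at he

theorem Bd.neg {S : Finset σ} {lo up : ℕ} {P : MvPolynomial σ K} (h : Bd S lo up P) :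
    Bd S lo up (-P) := by
  intro e he
  rw [coeff_neg, neg_ne_zero] at he
  exact h e he

theorem Bd.sub {S : Finset σ} {lo up : ℕ} {P Q : MvPolynomial σ K} (h : Bd S lo up P)
    (h' : Bd S lo up Q) : Bd S lo up (P - Q) := by
  rw [sub_eq_add_neg]; exact h.add h'.neg

theorem Bd.mul {S : Finset σ} {lo up lo' up' : ℕ} {P Q : MvPolynomial σ K} (h : Bd S lo up P)
    (h' : Bd S lo' up' Q) : Bd S (lo + lo') (up + up') (P * Q) := by
  intro e he
  rw [coeff_mul] at he
  obtain ⟨⟨e1, e2⟩, hmem, hne⟩ := Finset.exists_ne_zero_of_sum_ne_zero he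
  rw [Finset.HasAntidiagonal.mem_antidiagonal] at hmem
  simp only at hmem hne
  obtain ⟨a1, a2⟩ := h e1 (left_ne_zero_of_mul hne)
  obtain ⟨b1, b2⟩ := h' e2 (right_ne_zero_of_mul hne)
  have : ∑ c ∈ S, e c = ∑ c ∈ S, e1 c + ∑ c ∈ S, e2 c := by
    rw [← Finset.sum_add_distrib]
    refine Finset.sum_congr rfl fun c _ => ?_
    rw [← hmem]; rfl
  omega

theorem Bd.one (S : Finset σ) : Bd S 0 0 (1 : MvPolynomial σ K) := by
  intro e he
  rw [coeff_one] at he
  split_ifs at he with h
  · subst h; simp
  · exact absurd rfl he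

theorem Bd.prod {S : Finset σ} {ι : Type*} (s : Finset ι) (lo up : ι → ℕ)
    (P : ι → MvPolynomial σ K) (h : ∀ i ∈ s, Bd S (lo i) (up i) (P i)) :
    Bd S (∑ i ∈ s, lo i) (∑ i ∈ s, up i) (∏ i ∈ s, P i) := by
  classical
  induction s using Finset.induction_on with
  | empty => simpa using Bd.one S
  | insert i s hi ih =>
    rw [Finset.sum_insert hi, Finset.sum_insert hi, Finset.prod_insert hi]
    exact (h i (Finset.mem_insert_self _ _)).mul
      (ih fun j hj => h j (Finset.mem_insert_of_mem hj))

theorem Bd.C_mul {S : Finset σ} {lo up : ℕ} {P : MvPolynomial σ K} (h : Bd S lo up P) (x : K) :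
    Bd S lo up (C x * P) := by
  intro e he
  rw [coeff_C_mul] at he
  exact h e (right_ne_zero_of_mul he)

theorem Bd.var (S : Finset σ) (a : σ) :
    Bd S (if a ∈ S then 1 else 0) (if a ∈ S then 1 else 0) (X a : MvPolynomial σ K) := by
  intro e he
  rw [coeff_X] at he
  split_ifs at he with h
  · subst h
    have : ∑ c ∈ S, (Finsupp.single a 1 : σ →₀ ℕ) c = if a ∈ S then 1 else 0 := by
      simp [Finsupp.single_apply]
    rw [this]; simp
  · exact absurd rfl he

theorem Bd.mono {S : Finset σ} {lo up lo' up' : ℕ} {P : MvPolynomial σ K} (h : Bd S lo up P)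
    (h1 : lo' ≤ lo) (h2 : up ≤ up') : Bd S lo' up' P :=
  fun e he => ⟨h1.trans (h e he).1, (h e he).2.trans h2⟩

/-- A linear form in two variables. -/
theorem Bd.lin (S : Finset σ) (a b : σ) (x y : K) :
    Bd S (if a ∈ S ∧ b ∈ S then 1 else 0) (if a ∈ S ∨ b ∈ S then 1 else 0)
      (C x * X b - C y * X a) := by
  refine Bd.sub ?_ ?_
  · refine (Bd.C_mul (Bd.var S b) x).mono ?_ ?_ <;> split_ifs <;> simp_all
  · refine (Bd.C_mul (Bd.var S a) y).mono ?_ ?_ <;> split_ifs <;> simp_all

theorem JointBd.sub {lo up : ℕ → ℕ} {P Q : MvPolynomial σ K} (h : JointBd lo up P)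
    (h' : JointBd lo up Q) : JointBd lo up (P - Q) := fun S => (h S).sub (h' S)

theorem JointBd.add {lo up : ℕ → ℕ} {P Q : MvPolynomial σ K} (h : JointBd lo up P)
    (h' : JointBd lo up Q) : JointBd lo up (P + Q) := fun S => (h S).add (h' S)

theorem JointBd.zero (lo up : ℕ → ℕ) : JointBd lo up (0 : MvPolynomial σ K) :=
  fun S => Bd.zero S _ _

theorem JointBd.sum {lo up : ℕ → ℕ} {ι : Type*} (s : Finset ι) (P : ι → MvPolynomial σ K)
    (h : ∀ i ∈ s, JointBd lo up (P i)) : JointBd lo up (∑ i ∈ s, P i) := by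
  classical
  induction s using Finset.induction_on with
  | empty => simpa using JointBd.zero lo up
  | insert i s hi ih =>
    rw [Finset.sum_insert hi]
    exact (h i (Finset.mem_insert_self _ _)).add
      (ih fun j hj => h j (Finset.mem_insert_of_mem hj))

/-- Divided differences preserve joint bounds. -/
theorem JointBd.dd {lo up : ℕ → ℕ} {q : K} {a b : σ} (hab : a ≠ b) {P Q : MvPolynomial σ K}
    (h : JointBd lo up P) (hQ : IsDD q a b P Q) : JointBd lo up Q := by
  intro S e' he'
  obtain ⟨e, he, h1, h2, h3, h4⟩ := hQ.2 e' (mem_support_iff.2 he')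
  rw [mem_support_iff] at he
  by_cases ha : a ∈ S <;> by_cases hb : b ∈ S
  · have key : ∀ f : σ →₀ ℕ, ∑ c ∈ S, f c = f a + (f b + ∑ c ∈ (S.erase a).erase b, f c) := by
      intro f
      rw [← Finset.add_sum_erase S _ ha,
        ← Finset.add_sum_erase (S.erase a) _ (Finset.mem_erase.2 ⟨hab.symm, hb⟩)]
    have hr : ∑ c ∈ (S.erase a).erase b, e' c = ∑ c ∈ (S.erase a).erase b, e c := by
      refine Finset.sum_congr rfl fun c hc => ?_
      simp only [Finset.mem_erase] at hc
      exact h1 c hc.2.1 hc.1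
    have h0 := h S e he
    rw [key e'] ; rw [key e] at h0
    omega
  · have key : ∀ f : σ →₀ ℕ, ∑ c ∈ S, f c = f a + ∑ c ∈ S.erase a, f c := by
      intro f; rw [← Finset.add_sum_erase S _ ha]
    have hr : ∑ c ∈ S.erase a, e' c = ∑ c ∈ S.erase a, e c := by
      refine Finset.sum_congr rfl fun c hc => ?_
      simp only [Finset.mem_erase] at hc
      exact h1 c hc.1 (fun hcb => hb (hcb ▸ hc.2))
    have h0 := h S e he
    have hb' : b ∉ S.erase a := fun hh => hb (Finset.mem_of_mem_erase hh)
    have h0' := h (insert b (S.erase a)) e he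
    have hcard : (insert b (S.erase a)).card = S.card := by
      rw [Finset.card_insert_of_notMem hb', Finset.card_erase_of_mem ha]
      have : 0 < S.card := Finset.card_pos.2 ⟨a, ha⟩
      omega
    rw [hcard, Finset.sum_insert hb'] at h0'
    rw [key e']; rw [key e] at h0
    omega
  · have key : ∀ f : σ →₀ ℕ, ∑ c ∈ S, f c = f b + ∑ c ∈ S.erase b, f c := by
      intro f; rw [← Finset.add_sum_erase S _ hb]
    have hr : ∑ c ∈ S.erase b, e' c = ∑ c ∈ S.erase b, e c := by
      refine Finset.sum_congr rfl fun c hc => ?_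
      simp only [Finset.mem_erase] at hc
      exact h1 c (fun hca => ha (hca ▸ hc.2)) hc.1
    have h0 := h S e he
    have ha' : a ∉ S.erase b := fun hh => ha (Finset.mem_of_mem_erase hh)
    have h0' := h (insert a (S.erase b)) e he
    have hcard : (insert a (S.erase b)).card = S.card := by
      rw [Finset.card_insert_of_notMem ha', Finset.card_erase_of_mem hb]
      have : 0 < S.card := Finset.card_pos.2 ⟨b, hb⟩
      omega
    rw [hcard, Finset.sum_insert ha'] at h0'
    rw [key e']; rw [key e] at h0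
    omega
  · have hr : ∑ c ∈ S, e' c = ∑ c ∈ S, e c := by
      refine Finset.sum_congr rfl fun c hc => ?_
      exact h1 c (fun hca => ha (hca ▸ hc)) (fun hcb => hb (hcb ▸ hc))
    have h0 := h S e he
    omega

/-- Renaming by a permutation preserves joint bounds. -/
theorem JointBd.rename {lo up : ℕ → ℕ} (f : Equiv.Perm σ) {P : MvPolynomial σ K}
    (h : JointBd lo up P) : JointBd lo up (MvPolynomial.rename f P) := by
  intro S e he
  have hcoeff : coeff e (MvPolynomial.rename f P)
      = coeff (e.mapDomain f.symm) P := by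
    conv_lhs => rw [show e = (e.mapDomain f.symm).mapDomain f by
      rw [← Finsupp.mapDomain_comp]; simp]
    exact coeff_rename_mapDomain f f.injective _ _
  rw [hcoeff] at he
  have h0 := h (S.map f.symm.toEmbedding) _ he
  rw [Finset.card_map, Finset.sum_map] at h0
  have : ∀ c, (e.mapDomain f.symm) (f.symm.toEmbedding c) = e c := fun c =>
    Finsupp.mapDomain_apply f.symm.injective _ _
  simpa only [this] using h0

/-- Degree bound in one variable. -/
theorem JointBd.degreeOf_le {lo up : ℕ → ℕ} {P : MvPolynomial σ K} (h : JointBd lo up P) (a : σ) :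
    degreeOf a P ≤ up 1 := by
  rw [degreeOf_le_iff]
  intro e he
  have := (h {a} e (mem_support_iff.1 he)).2
  simpa using this

end Pool.Agent.H12.QKZ
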